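import Pool.Agent.Helper35.CR.Defs

/-!
# Project CR (MP_434e52_an, S04498), block CR-4: isomorphic group algebras with trace give isomorphic von Neumann algebras

`c : G → ℂ[H]` (finitely supported functions): multiplicative, compatible with the trace (the coefficient of `1`) and with `*`, and every `h` is a combination of the `c g` (`d`).
PROOF. `v g : ℓ²(H)`, the vector with the coefficients `c g`. `⟪v g, v g'⟫ = ∑_h conj (c g h) c g' h = ∑_h c g⁻¹ h⁻¹ c g' h = c (g⁻¹ g') 1 = if g = g' then 1 else 0`, and the span of the `v g` contains all `δ_h`, so it is dense: a Hilbert basis, `U : ℓ²(G) ≃ₗᵢ ℓ²(H)` with `U δ_g = v g`.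
The right translation by `g` on `ℓ²(G)`: `R g δ_x = δ_{x g⁻¹}`, or with `g⁻¹`: `R' g δ_x = δ_{x g}`. `U R' g U⁻¹ = ∑_h c g h • R' h` (on `v x`: `v (x g)` is the product). So an operator `T` of `ℓ²(G)` commutes with all `R' g` iff `U T U⁻¹` commutes with all `U R' g U⁻¹`, iff it commutes with all `R' h`
(`R' h = U (∑_g d h g • R' g) U⁻¹`). `T ∈ cm G` iff `T` commutes with all right translations (for every `f` and `g` there is exactly one `f' ∈ ℓ²` with `f' x = f (x g)`). `Φ T = U T U⁻¹`, and the inverse for the second statement.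
-/

set_option autoImplicit false

open scoped ComplexConjugate

namespace Pool.Agent.Helper35.CR

/-- `ℓ²(G)` -/
private abbrev L67 (G : Type) : Type := lp (fun _ : G => ℂ) 2

/-- The right translation by `g` as an isometry. -/
private noncomputable def rt67 {G : Type} [Group G] (g : G) : lp (fun _ : G => ℂ) 2 →ₗᵢ[ℂ] lp (fun _ : G => ℂ) 2 where
  toFun f := ⟨fun x => f (x * g), by
    have hp : 0 < (2 : ENNReal).toReal := by norm_num
    refine memℓp_gen ?_
    exact (Equiv.mulRight g).summable_iff.mpr ((lp.memℓp f).summable hp)⟩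
  map_add' f f' := rfl
  map_smul' a f := rfl
  norm_map' f := by
    have hp : 0 < (2 : ENNReal).toReal := by norm_num
    rw [lp.norm_eq_tsum_rpow hp, lp.norm_eq_tsum_rpow hp]
    congr 1
    exact (Equiv.mulRight g).tsum_eq (fun x => ‖f x‖ ^ (2 : ENNReal).toReal)

private theorem rt67_apply {G : Type} [Group G] (g : G) (f : lp (fun _ : G => ℂ) 2) (x : G) : rt67 g f x = f (x * g) := rfl

/-- The right translation as a continuous linear map. -/
private noncomputable def R67 {G : Type} [Group G] (g : G) : lp (fun _ : G => ℂ) 2 →L[ℂ] lp (fun _ : G => ℂ) 2 :=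
  (rt67 g).toContinuousLinearMap

private theorem R67_apply {G : Type} [Group G] (g : G) (f : lp (fun _ : G => ℂ) 2) (x : G) : R67 g f x = f (x * g) := rfl

private theorem cm_iff67 {G : Type} [Group G] (T : lp (fun _ : G => ℂ) 2 →L[ℂ] lp (fun _ : G => ℂ) 2) :
    T ∈ cm G ↔ ∀ g : G, Commute T (R67 g) := by
  constructor
  · intro h g
    ext f x
    exact h g f (R67 g f) (fun x => rfl) x
  · intro h g f f' hf x
    have h1 : f' = R67 g f := by
      ext x
      exact hf x
    have h2 := congrArg (fun A : lp (fun _ : G => ℂ) 2 →L[ℂ] lp (fun _ : G => ℂ) 2 => A f x) (h g).eq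
    rw [h1]
    exact h2

private theorem R67_single {G : Type} [Group G] [DecidableEq G] (g x : G) (a : ℂ) :
    R67 g (lp.single 2 x a : lp (fun _ : G => ℂ) 2) = lp.single 2 (x * g⁻¹) a := by
  ext y
  rw [R67_apply, lp.single_apply, lp.single_apply, Pi.single_apply, Pi.single_apply]
  simp only [eq_mul_inv_iff_mul_eq]

/-- The vector with given finitely many coefficients. -/
private noncomputable def V67 (H : Type) [DecidableEq H] : (H →₀ ℂ) →ₗ[ℂ] lp (fun _ : H => ℂ) 2 :=
  Finsupp.linearCombination ℂ (fun h : H => (lp.single 2 h (1 : ℂ) : lp (fun _ : H => ℂ) 2))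

private theorem V67_single (H : Type) [DecidableEq H] (h : H) (a : ℂ) :
    V67 H (Finsupp.single h a) = lp.single 2 h a := by
  rw [V67, Finsupp.linearCombination_single, ← lp.single_smul, smul_eq_mul, mul_one]

private theorem V67_apply (H : Type) [DecidableEq H] (f : H →₀ ℂ) (x : H) : V67 H f x = f x := by
  induction f using Finsupp.induction_linear with
  | zero => simp
  | add f g hf hg => rw [map_add, lp.coeFn_add, Pi.add_apply, hf, hg, Finsupp.add_apply]
  | single h a =>
    rw [V67_single, lp.single_apply, Pi.single_apply, Finsupp.single_apply]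
    simp only [eq_comm]

private theorem dense67 (H : Type) [DecidableEq H] :
    (Submodule.span ℂ (Set.range fun h : H => (lp.single 2 h (1 : ℂ) : lp (fun _ : H => ℂ) 2))).topologicalClosure = ⊤ := by
  have h := (HilbertBasis.ofRepr (LinearIsometryEquiv.refl ℂ (lp (fun _ : H => ℂ) 2))).dense_span
  rw [← h]
  congr 3
  funext x
  rw [← HilbertBasis.repr_symm_single]
  rfl

private theorem ext67 {G H : Type} [DecidableEq G] (A B : lp (fun _ : G => ℂ) 2 →L[ℂ] lp (fun _ : H => ℂ) 2)
    (h : ∀ x, A (lp.single 2 x 1) = B (lp.single 2 x 1)) : A = B := by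
  refine ContinuousLinearMap.ext_on (s := Set.range fun h : G => (lp.single 2 h (1 : ℂ) : lp (fun _ : G => ℂ) 2)) ?_ ?_
  · rw [dense_iff_closure_eq, ← Submodule.topologicalClosure_coe, dense67]
    rfl
  · rintro _ ⟨x, rfl⟩
    exact h x

private theorem liso67 {G H : Type} [Group G] [Group H] (U : lp (fun _ : G => ℂ) 2 ≃ₗᵢ[ℂ] lp (fun _ : H => ℂ) 2)
    (hU : ∀ T, T ∈ cm G ↔ U.conjStarAlgEquiv T ∈ cm H) : LIso G H := by
  refine ⟨U.conjStarAlgEquiv, ⟨fun T hT => (hU T).mp hT, U.conjStarAlgEquiv.injective.injOn, ?_⟩, ?_⟩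
  · intro T hT
    refine ⟨U.conjStarAlgEquiv.symm T, ?_, U.conjStarAlgEquiv.apply_symm_apply T⟩
    rw [hU, U.conjStarAlgEquiv.apply_symm_apply]
    exact hT
  · intro x _ y _
    exact ⟨map_add _ x y, map_mul _ x y, map_star _ x, fun c => map_smul _ c x⟩

theorem liso_of_alg {G H : Type} [Group G] [Group H] (c : G → H →₀ ℂ) (d : H → G →₀ ℂ) (h1 : c 1 = Finsupp.single 1 1)
    (hmul : ∀ g g', c (g * g') = (c g).sum fun h a => (c g').sum fun h' a' => Finsupp.single (h * h') (a * a'))
    (hd : ∀ h, (d h).sum (fun g a => a • c g) = Finsupp.single h 1) (htr : ∀ g, g ≠ 1 → c g 1 = 0)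
    (hstar : ∀ g h, c g⁻¹ h = conj (c g h⁻¹)) : LIso G H ∧ LIso H G := by
  classical
  -- the vectors `v g`
  have hV : ∀ g x, V67 H (c g) x = c g x := fun g x => V67_apply H (c g) x
  have horth : Orthonormal ℂ (fun g => V67 H (c g)) := by
    rw [orthonormal_iff_ite]
    intro g g'
    have e1 : (inner ℂ (V67 H (c g)) (V67 H (c g')) : ℂ) = (c g').sum fun x a => c g⁻¹ x⁻¹ * a := by
      rw [lp.inner_eq_tsum, Finsupp.sum, tsum_eq_sum (s := (c g').support)]
      · refine Finset.sum_congr rfl fun x _ => ?_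
        rw [hV, hV, hstar g x⁻¹, inv_inv]
        simp [mul_comm]
      · intro x hx
        rw [hV, hV, Finsupp.notMem_support_iff.mp hx]
        simp
    have e2 : c (g⁻¹ * g') 1 = (c g').sum fun x a => c g⁻¹ x⁻¹ * a := by
      rw [hmul, Finsupp.sum_comm, Finsupp.sum_apply]
      refine Finset.sum_congr rfl fun x _ => ?_
      beta_reduce
      rw [Finsupp.sum_apply]
      simp only [Finsupp.single_apply]
      by_cases hx : x⁻¹ ∈ (c g⁻¹).support
      · rw [Finsupp.sum, Finset.sum_eq_single x⁻¹]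
        · simp
        · intro y _ hy
          rw [if_neg]
          intro h
          exact hy (eq_inv_of_mul_eq_one_left h)
        · intro h
          exact absurd hx h
      · rw [Finsupp.notMem_support_iff.mp hx, zero_mul, Finsupp.sum]
        refine Finset.sum_eq_zero fun y hy => ?_
        rw [if_neg]
        intro h
        rw [eq_inv_of_mul_eq_one_left h] at hy
        exact hx hy
    rw [e1, ← e2]
    split_ifs with h
    · rw [h, inv_mul_cancel, h1, Finsupp.single_eq_same]
    · exact htr _ fun h' => h (inv_mul_eq_one.mp h')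
  have hspan : ⊤ ≤ (Submodule.span ℂ (Set.range fun g => V67 H (c g))).topologicalClosure := by
    rw [← dense67 H]
    refine Submodule.topologicalClosure_mono (Submodule.span_le.mpr ?_)
    rintro _ ⟨h, rfl⟩
    have h2 := congrArg (V67 H) (hd h)
    rw [map_finsuppSum, V67_single] at h2
    change lp.single 2 h (1 : ℂ) ∈ Submodule.span ℂ (Set.range fun g => V67 H (c g))
    rw [← h2]
    refine Submodule.sum_mem _ fun g _ => ?_
    beta_reduce
    rw [map_smul]
    exact Submodule.smul_mem _ _ (Submodule.subset_span ⟨g, rfl⟩)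
  let U : lp (fun _ : G => ℂ) 2 ≃ₗᵢ[ℂ] lp (fun _ : H => ℂ) 2 := (HilbertBasis.mk horth hspan).repr.symm
  have hUs : ∀ g, U (lp.single 2 g 1) = V67 H (c g) := by
    intro g
    change (HilbertBasis.mk horth hspan).repr.symm (lp.single 2 g 1) = V67 H (c g)
    rw [HilbertBasis.repr_symm_single, HilbertBasis.coe_mk]
  -- the operators `A g`
  let Rl : (H →₀ ℂ) →ₗ[ℂ] (lp (fun _ : H => ℂ) 2 →L[ℂ] lp (fun _ : H => ℂ) 2) :=
    Finsupp.linearCombination ℂ (fun k : H => R67 k⁻¹)
  have hRs : ∀ k (a : ℂ), Rl (Finsupp.single k a) = a • R67 k⁻¹ := fun k a => Finsupp.linearCombination_single ℂ a k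
  have hRl : ∀ (f f' : H →₀ ℂ), Rl f (V67 H f') =
      V67 H (f'.sum fun h' a' => f.sum fun k a => Finsupp.single (h' * k) (a' * a)) := by
    intro f f'
    rw [map_finsuppSum]
    simp only [map_finsuppSum, V67_single]
    change (f.sum fun k a => a • R67 k⁻¹ : lp (fun _ : H => ℂ) 2 →L[ℂ] lp (fun _ : H => ℂ) 2)
      (f'.sum fun h a => a • (lp.single 2 h (1 : ℂ) : lp (fun _ : H => ℂ) 2)) = _
    simp only [Finsupp.sum, map_sum, ContinuousLinearMap.sum_apply, ContinuousLinearMap.smul_apply, map_smul, R67_single, inv_inv]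
    refine Finset.sum_congr rfl fun h _ => ?_
    rw [Finset.smul_sum]
    refine Finset.sum_congr rfl fun k _ => ?_
    rw [smul_smul, ← lp.single_smul, smul_eq_mul, mul_one]
  have hrel : ∀ g f, U (R67 g⁻¹ f) = Rl (c g) (U f) := by
    intro g f
    have h2 : (U : lp (fun _ : G => ℂ) 2 →L[ℂ] lp (fun _ : H => ℂ) 2).comp (R67 g⁻¹) =
        (Rl (c g)).comp (U : lp (fun _ : G => ℂ) 2 →L[ℂ] lp (fun _ : H => ℂ) 2) := by
      refine ext67 _ _ fun x => ?_
      change U (R67 g⁻¹ (lp.single 2 x 1)) = Rl (c g) (U (lp.single 2 x 1))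
      rw [R67_single, inv_inv, hUs, hUs, hRl, hmul]
    exact congrArg (fun A : lp (fun _ : G => ℂ) 2 →L[ℂ] lp (fun _ : H => ℂ) 2 => A f) h2
  have hcom : ∀ T : lp (fun _ : H => ℂ) 2 →L[ℂ] lp (fun _ : H => ℂ) 2, (∀ k : H, Commute T (R67 k)) ↔
      ∀ g, Commute T (Rl (c g)) := by
    intro T
    constructor
    · intro h g
      change Commute T ((c g).sum fun k a => a • R67 k⁻¹)
      exact Commute.sum_right _ _ _ fun k _ => (h k⁻¹).smul_right _
    · intro h k
      have h2 := congrArg Rl (hd k⁻¹)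
      rw [map_finsuppSum, hRs, one_smul, inv_inv] at h2
      rw [← h2]
      refine Commute.sum_right _ _ _ fun g _ => ?_
      beta_reduce
      rw [map_smul]
      exact (h g).smul_right _
  have hU : ∀ T, T ∈ cm G ↔ U.conjStarAlgEquiv T ∈ cm H := by
    intro T
    rw [cm_iff67, cm_iff67, hcom]
    constructor
    · intro h g
      ext1 f
      change U (T (U.symm (Rl (c g) f))) = Rl (c g) (U (T (U.symm f)))
      have h2 : U.symm (Rl (c g) f) = R67 g⁻¹ (U.symm f) := by
        rw [LinearIsometryEquiv.symm_apply_eq, hrel, LinearIsometryEquiv.apply_symm_apply]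
      have h3 : T (R67 g⁻¹ (U.symm f)) = R67 g⁻¹ (T (U.symm f)) :=
        congrArg (fun A : lp (fun _ : G => ℂ) 2 →L[ℂ] lp (fun _ : G => ℂ) 2 => A (U.symm f)) (h g⁻¹).eq
      rw [h2, h3, hrel]
    · intro h g
      ext1 f
      change T (R67 g f) = R67 g (T f)
      apply U.injective
      have h2 : U (T (U.symm (Rl (c g⁻¹) (U f)))) = Rl (c g⁻¹) (U (T (U.symm (U f)))) :=
        congrArg (fun A : lp (fun _ : H => ℂ) 2 →L[ℂ] lp (fun _ : H => ℂ) 2 => A (U f)) (h g⁻¹).eq
      rw [← hrel, inv_inv, LinearIsometryEquiv.symm_apply_apply, LinearIsometryEquiv.symm_apply_apply] at h2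
      rw [h2, ← hrel, inv_inv]
  refine ⟨liso67 U hU, liso67 U.symm fun T => ?_⟩
  rw [hU]
  have h2 : U.conjStarAlgEquiv (U.symm.conjStarAlgEquiv T) = T := by
    ext1 f
    change U (U.symm (T (U (U.symm f)))) = T f
    rw [LinearIsometryEquiv.apply_symm_apply, LinearIsometryEquiv.apply_symm_apply]
  rw [h2]

end Pool.Agent.Helper35.CR
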