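import Pool.Agent.Helper35.CR.Defs

/-!
# Project CR (MP_434e52_an, S04498), block CR-2: angles, commuting subgroups and Heisenberg pairs

`P X ξ = (1 / |X|) ∑_{x ∈ X} π x ξ`.
`ang_comm`: `P X η` is invariant under `X` and under `Y` (they commute), so `⟪ζ, η⟫ = ⟪P X ζ, η⟫ = ⟪ζ, P X η⟫` and `‖P X η‖² = ⟪P X η, η⟫ = 0` by the hypothesis on `η` with `θ = P X η`.
`ang_heis`: `⟪ζ, η⟫ = ⟪ζ, P X η⟫`, so it is enough that `‖P X η‖² ≤ ‖η‖² / |X|`. `‖P X η‖² = ⟪P X η, η⟫ = (1 / |X|) ∑_x ⟪x η, η⟫`. For `x ≠ 1`: `⟪x η, η⟫ = ⟪x y η, y η⟫ = ⟪y⁻¹ x y η, η⟫ = ⟪x (x⁻¹ y⁻¹ x y) η, η⟫` for all `y ∈ Y`, average over `y`: `= ⟪x (P Z η), η⟫`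
(`BijOn`; so `Z` is finite). So `‖P X η‖² = (1 / |X|) (‖η‖² - ⟪P Z η, η⟫) + ⟪P X (P Z η), η⟫`, `⟪P Z η, η⟫ = ‖P Z η‖² ≥ 0`, and `P X (P Z η)` is `X`-invariant and `Y`-invariant: for `y ∈ Y`, `x ∈ X`, `z ∈ Z`, `y x = x y (y⁻¹ x⁻¹ y x)` with `y⁻¹ x⁻¹ y x ∈ Z` (inverse of `x⁻¹ y⁻¹ x y ∈ Z`), which acts
trivially on `P Z η`, and `P Z η` is `Y`-invariant (`Z` commutes with `Y`); so it is orthogonal to `η`.
-/

set_option autoImplicit false

namespace Pool.Agent.Helper35.CR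

variable {G : Type} [Group G]

theorem Ang.mono {X Y : Subgroup G} {ε ε' : ℝ} (h : Ang X Y ε) (hε : ε ≤ ε') : Ang X Y ε' := by
  intro E _ _ _ π hπ ζ η h1 h2 h3
  refine (h E π hπ ζ η h1 h2 h3).trans ?_
  gcongr

section Avg4

variable {E : Type} [NormedAddCommGroup E] [InnerProductSpace ℂ E] [CompleteSpace E]

private noncomputable def av4 (π : G →* (E →L[ℂ] E)) (X : Subgroup G) [Fintype X] (η : E) : E :=
  ((Fintype.card X : ℂ)⁻¹) • ∑ x : X, π (x : G) η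

private theorem inn4 (π : G →* (E →L[ℂ] E)) (hπ : ∀ g : G, π g ∈ unitary (E →L[ℂ] E)) (g : G)
    (u v : E) : inner ℂ (π g u) (π g v) = inner ℂ u v := by
  have h1 : star (π g) * π g = 1 := (Unitary.mem_iff.1 (hπ g)).1
  have h2 : inner ℂ (π g u) (π g v) = inner ℂ ((star (π g)) (π g u)) v := by
    rw [ContinuousLinearMap.star_eq_adjoint, ContinuousLinearMap.adjoint_inner_left]
  rw [h2]
  have h3 : (star (π g)) (π g u) = (star (π g) * π g) u := rfl
  rw [h3, h1]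
  rfl

private theorem card_ne4 (X : Subgroup G) [Fintype X] : (Fintype.card X : ℂ) ≠ 0 :=
  Nat.cast_ne_zero.2 Fintype.card_ne_zero

omit [CompleteSpace E] in
private theorem av_inv4 (π : G →* (E →L[ℂ] E)) (X : Subgroup G) [Fintype X] (η : E) (x : G)
    (hx : x ∈ X) : π x (av4 π X η) = av4 π X η := by
  rw [av4, map_smul, map_sum]
  congr 1
  exact Fintype.sum_equiv (Equiv.mulLeft (⟨x, hx⟩ : X)) _ _ (fun y => by
    rw [Equiv.coe_mulLeft]
    push_cast
    rw [map_mul]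
    rfl)

private theorem inner_av4 (π : G →* (E →L[ℂ] E)) (hπ : ∀ g : G, π g ∈ unitary (E →L[ℂ] E))
    (X : Subgroup G) [Fintype X] (ζ η : E) (hζ : ∀ x ∈ X, π x ζ = ζ) :
    inner ℂ ζ (av4 π X η) = inner ℂ ζ η := by
  rw [av4, inner_smul_right, inner_sum]
  have h1 : ∀ x : X, inner ℂ ζ (π (x : G) η) = inner ℂ ζ η := by
    intro x
    conv_lhs => rw [← hζ x x.2]
    exact inn4 π hπ x ζ η
  rw [Finset.sum_congr rfl fun x _ => h1 x, Finset.sum_const, Finset.card_univ, nsmul_eq_mul,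
    ← mul_assoc, inv_mul_cancel₀ (card_ne4 X), one_mul]

omit [CompleteSpace E] in
private theorem av_comm4 (π : G →* (E →L[ℂ] E)) (X : Subgroup G) [Fintype X] (η : E) (y : G)
    (hy : π y η = η) (hc : ∀ x ∈ X, x * y = y * x) : π y (av4 π X η) = av4 π X η := by
  rw [av4, map_smul, map_sum]
  congr 1
  refine Finset.sum_congr rfl fun x _ => ?_
  have h1 : π y (π (x : G) η) = π (y * x) η := by rw [map_mul]; rfl
  have h2 : π (x : G) (π y η) = π (x * y) η := by rw [map_mul]; rfl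
  rw [h1, ← hc x x.2, ← h2, hy]

end Avg4

theorem ang_comm {X Y : Subgroup G} [Finite X] (h : ∀ x ∈ X, ∀ y ∈ Y, x * y = y * x) : Ang X Y 0 := by
  intro E _ _ _ π hπ ζ η hζ hη horth
  letI := Fintype.ofFinite X
  have hθX := av_inv4 π X η
  have hθY : ∀ y ∈ Y, π y (av4 π X η) = av4 π X η := fun y hy =>
    av_comm4 π X η y (hη y hy) (fun x hx => h x hx y hy)
  have h1 := horth (av4 π X η) (fun x hx => hθX x hx) hθY
  rw [← inner_av4 π hπ X (av4 π X η) η (fun x hx => hθX x hx), inner_self_eq_zero] at h1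
  rw [← inner_av4 π hπ X ζ η hζ, h1, inner_zero_right, norm_zero]
  simp

theorem ang_heis {X Y Z : Subgroup G} [Finite X] [Finite Y] (hX : ∀ z ∈ Z, ∀ x ∈ X, z * x = x * z) (hY : ∀ z ∈ Z, ∀ y ∈ Y, z * y = y * z)
    (hc : ∀ x ∈ X, x ≠ 1 → Set.BijOn (fun y => x⁻¹ * y⁻¹ * x * y) (Y : Set G) Z) : Ang X Y (1 / √(Nat.card X)) := by
  intro E _ _ _ π hπ ζ η hζ hη horth
  letI := Fintype.ofFinite X
  letI := Fintype.ofFinite Y
  classical
  by_cases htriv : ∀ x ∈ X, x = 1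
  · have h1 : Nat.card X = 1 := by
      rw [Subgroup.card_eq_one, eq_bot_iff]
      intro x hx
      exact Subgroup.mem_bot.2 (htriv x hx)
    rw [h1]
    simp only [Nat.cast_one, Real.sqrt_one, div_one, one_mul]
    exact norm_inner_le_norm ζ η
  push Not at htriv
  obtain ⟨x0, hx0, hx01⟩ := htriv
  have hZf : (Z : Set G).Finite := by
    rw [← (hc x0 hx0 hx01).image_eq]
    exact (Set.toFinite (Y : Set G)).image _
  haveI : Finite Z := hZf.to_subtype
  letI := Fintype.ofFinite Z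
  -- the averages over `Y` of the commutators
  have havg : ∀ x ∈ X, x ≠ 1 → inner ℂ (π x η) η = inner ℂ (π x (av4 π Z η)) η := by
    intro x hx hx1
    have hb := hc x hx hx1
    let e : Y ≃ Z := Equiv.ofBijective (fun y : Y => (⟨x⁻¹ * (y : G)⁻¹ * x * y, hb.mapsTo y.2⟩ : Z))
      ⟨by
        intro y1 y2 h12
        apply Subtype.ext
        exact hb.injOn y1.2 y2.2 (congrArg Subtype.val h12), by
        intro z
        obtain ⟨y, hy, hyz⟩ := hb.surjOn z.2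
        exact ⟨⟨y, hy⟩, Subtype.ext hyz⟩⟩
    have h1 : ∀ y : Y, inner ℂ (π x η) η = inner ℂ (π x (π ((e y : Z) : G) η)) η := by
      intro y
      have e1 : π x (π ((e y : Z) : G) η) = π (y : G)⁻¹ (π x (π (y : G) η)) := by
        have a1 : π x (π ((e y : Z) : G) η) = π (x * ((e y : Z) : G)) η := by
          rw [map_mul]; rfl
        have a2 : π (y : G)⁻¹ (π x (π (y : G) η)) = π ((y : G)⁻¹ * x * (y : G)) η := by
          rw [map_mul, map_mul]; rfl
        rw [a1, a2]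
        congr 2
        change x * (x⁻¹ * (y : G)⁻¹ * x * y) = _
        group
      rw [e1, hη y y.2]
      have h2 := inn4 π hπ (y : G)⁻¹ (π x η) η
      rw [hη _ (Y.inv_mem y.2)] at h2
      exact h2.symm
    have h3 : (Fintype.card Y : ℂ) * inner ℂ (π x η) η =
        ∑ z : Z, inner ℂ (π x (π (z : G) η)) η := by
      have h4 : ∑ z : Z, inner ℂ (π x (π (z : G) η)) η =
          ∑ y : Y, inner ℂ (π x (π ((e y : Z) : G) η)) η :=
        (Fintype.sum_equiv e _ _ (fun y => rfl)).symm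
      rw [h4, Finset.sum_congr rfl fun y _ => (h1 y).symm, Finset.sum_const, Finset.card_univ,
        nsmul_eq_mul]
    have h5 : Fintype.card Y = Fintype.card Z := Fintype.card_congr e
    rw [av4, map_smul, inner_smul_left, map_sum, sum_inner, ← h3, h5, ← mul_assoc]
    have h6 : (starRingEnd ℂ) ((Fintype.card Z : ℂ)⁻¹) = (Fintype.card Z : ℂ)⁻¹ := by
      rw [map_inv₀, Complex.conj_natCast]
    rw [h6, inv_mul_cancel₀ (card_ne4 Z), one_mul]
  set θ := av4 π Z η with hθ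
  have hθZ : ∀ z ∈ Z, π z θ = θ := fun z hz => av_inv4 π Z η z hz
  have hθY : ∀ y ∈ Y, π y θ = θ := fun y hy => av_comm4 π Z η y (hη y hy) (fun z hz => hY z hz y hy)
  -- `P X θ` is orthogonal to `η`
  have hXθY : ∀ y ∈ Y, π y (av4 π X θ) = av4 π X θ := by
    intro y hy
    rw [av4, map_smul, map_sum]
    congr 1
    refine Finset.sum_congr rfl fun x _ => ?_
    have hz : y⁻¹ * (x : G)⁻¹ * y * x ∈ Z := by
      by_cases hx1 : (x : G) = 1
      · rw [hx1]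
        have : y⁻¹ * (1 : G)⁻¹ * y * 1 = 1 := by group
        rw [this]
        exact Z.one_mem
      · have h1 := Z.inv_mem ((hc x x.2 hx1).mapsTo hy)
        have h2 : (((x : G))⁻¹ * y⁻¹ * x * y)⁻¹ = y⁻¹ * (x : G)⁻¹ * y * x := by group
        rwa [h2] at h1
    have h1 : π y (π (x : G) θ) = π (x : G) (π y (π (y⁻¹ * (x : G)⁻¹ * y * x) θ)) := by
      have a1 : π y (π (x : G) θ) = π (y * x) θ := by rw [map_mul]; rfl
      have hm3 : ∀ (a b c : G) (v : E), π a (π b (π c v)) = π (a * b * c) v := by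
        intro a b c v
        rw [map_mul, map_mul]; rfl
      have a2 : π (x : G) (π y (π (y⁻¹ * (x : G)⁻¹ * y * x) θ)) =
          π (x * y * (y⁻¹ * (x : G)⁻¹ * y * x)) θ := hm3 _ _ _ _
      rw [a1, a2]
      congr 2
      group
    rw [h1, hθZ _ hz, hθY y hy]
  have horth1 : inner ℂ (av4 π X θ) η = 0 :=
    horth _ (fun x hx => av_inv4 π X θ x hx) hXθY
  -- the main identity
  have hconj : (starRingEnd ℂ) ((Fintype.card X : ℂ)⁻¹) = (Fintype.card X : ℂ)⁻¹ := by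
    rw [map_inv₀, Complex.conj_natCast]
  have hsum1 : (Fintype.card X : ℂ) * inner ℂ (av4 π X η) η =
      ∑ x : X, inner ℂ (π (x : G) η) η := by
    rw [av4, inner_smul_left, sum_inner, hconj, ← mul_assoc, mul_inv_cancel₀ (card_ne4 X), one_mul]
  have hsum2 : (0 : ℂ) = ∑ x : X, inner ℂ (π (x : G) θ) η := by
    have h1 : (Fintype.card X : ℂ) * inner ℂ (av4 π X θ) η =
        ∑ x : X, inner ℂ (π (x : G) θ) η := by
      rw [av4, inner_smul_left, sum_inner, hconj, ← mul_assoc, mul_inv_cancel₀ (card_ne4 X),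
        one_mul]
    rw [← h1, horth1, mul_zero]
  have hmain : (Fintype.card X : ℂ) * inner ℂ (av4 π X η) η = inner ℂ η η - inner ℂ θ η := by
    have h1 : (Fintype.card X : ℂ) * inner ℂ (av4 π X η) η - 0 =
        ∑ x : X, (inner ℂ (π (x : G) η) η - inner ℂ (π (x : G) θ) η) := by
      rw [Finset.sum_sub_distrib, ← hsum1, ← hsum2]
    rw [sub_zero] at h1
    rw [h1, Finset.sum_eq_single (1 : X)]
    · push_cast
      rw [map_one]
      rfl
    · intro x _ hx1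
      rw [havg x x.2 (fun h => hx1 (Subtype.ext h)), sub_self]
    · intro h
      exact absurd (Finset.mem_univ _) h
  -- real parts
  have hr1 : inner ℂ (av4 π X η) η = ((‖av4 π X η‖ ^ 2 : ℝ) : ℂ) := by
    rw [← inner_av4 π hπ X (av4 π X η) η (fun x hx => av_inv4 π X η x hx),
      inner_self_eq_norm_sq_to_K]
    push_cast
    rfl
  have hr2 : inner ℂ θ η = ((‖θ‖ ^ 2 : ℝ) : ℂ) := by
    rw [← inner_av4 π hπ Z θ η hθZ, ← hθ, inner_self_eq_norm_sq_to_K]
    push_cast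
    rfl
  have hr3 : inner ℂ η η = ((‖η‖ ^ 2 : ℝ) : ℂ) := by
    rw [inner_self_eq_norm_sq_to_K]
    push_cast
    rfl
  rw [hr1, hr2, hr3] at hmain
  have hreal : (Fintype.card X : ℝ) * ‖av4 π X η‖ ^ 2 = ‖η‖ ^ 2 - ‖θ‖ ^ 2 := by
    exact_mod_cast hmain
  have hcardpos : (0 : ℝ) < Fintype.card X := Nat.cast_pos.2 Fintype.card_pos
  have hle : (√(Nat.card X) * ‖av4 π X η‖) ^ 2 ≤ ‖η‖ ^ 2 := by
    rw [mul_pow, Real.sq_sqrt (Nat.cast_nonneg _), Nat.card_eq_fintype_card, hreal]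
    nlinarith [sq_nonneg ‖θ‖]
  have hle2 : √(Nat.card X) * ‖av4 π X η‖ ≤ ‖η‖ :=
    (pow_le_pow_iff_left₀ (by positivity) (norm_nonneg _) two_ne_zero).1 hle
  rw [← inner_av4 π hπ X ζ η hζ]
  have hsq : 0 < √(Nat.card X : ℝ) := by
    rw [Nat.card_eq_fintype_card]
    exact Real.sqrt_pos.2 hcardpos
  have hle3 : ‖av4 π X η‖ ≤ ‖η‖ / √(Nat.card X) := by
    rw [le_div_iff₀ hsq, mul_comm]
    exact hle2
  calc ‖(inner ℂ ζ (av4 π X η) : ℂ)‖ ≤ ‖ζ‖ * ‖av4 π X η‖ := norm_inner_le_norm _ _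
    _ ≤ ‖ζ‖ * (‖η‖ / √(Nat.card X)) := mul_le_mul_of_nonneg_left hle3 (norm_nonneg _)
    _ = 1 / √(Nat.card X) * ‖ζ‖ * ‖η‖ := by ring

end Pool.Agent.Helper35.CR
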