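import Pool.Agent.Helper35.CR.Defs

/-!
# Project CR (MP_434e52_an, S04498), block CR-3: the angle for conjugates any three of which generate

`C a = a C a⁻¹` for `a ∈ U`, all contained in the commutative finite group `N`, normalised by `U`; any three different `C a` generate `N`.
PROOF. `⟪ζ, η⟫ = ⟪ζ, P_C η⟫`, so it is enough that `‖P_C η‖² ≤ (2 / |U|) ‖η‖²`. For `a ∈ U`: `P_{C a} = a P_C a⁻¹`, and `η` is `U`-invariant, so `‖P_{C a} η‖ = ‖P_C η‖`. `P_N η` is invariant under `N` (so under `C`) and under `U` (`U` normalises `N`), so `⟪P_N η, η⟫ = 0`, `P_N η = 0`.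
`R a = P_{C a} - P_N` (so `R a η = P_{C a} η`): orthogonal projections which commute (`N` is commutative), `R a R b R c = 0` for different `a, b, c ∈ U` (a vector invariant under `C a`, `C b`, `C c` is invariant under `N`; `P_{C a} P_{C b} P_{C c} = P_N`). `S = ∑_a R a`, `s = ∑_a ‖R a η‖² = ⟪S η, η⟫ ≤ ‖S η‖ ‖η‖`.
`‖S η‖² = ∑_{a, b} ⟪R a R b η, η⟫ = s + ∑_a ∑_{b ≠ a} ⟪R a R b η, η⟫`, and for fixed `a` the `R a R b`, `b ≠ a`, are mutually orthogonal projections below `R a`, so `∑_{b ≠ a} ⟪R a R b η, η⟫ ≤ ‖R a η‖²`. So `‖S η‖² ≤ 2 s`, `s² ≤ 2 s ‖η‖²`, `|U| ‖P_C η‖² = s ≤ 2 ‖η‖²`.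
-/

set_option autoImplicit false

namespace Pool.Agent.Helper35.CR

variable {G : Type} [Group G]

theorem ang_quad {C U N : Subgroup G} [Finite C] [Finite U] [Finite N] (hCN : ∀ u ∈ U, ∀ c ∈ C, u * c * u⁻¹ ∈ N) (hN : ∀ a ∈ N, ∀ b ∈ N, a * b = b * a)
    (hUN : ∀ u ∈ U, ∀ n ∈ N, u * n * u⁻¹ ∈ N)
    (h3 : ∀ a ∈ U, ∀ b ∈ U, ∀ c ∈ U, a ≠ b → a ≠ c → b ≠ c →
      N ≤ Subgroup.closure ({x | ∃ k ∈ C, x = a * k * a⁻¹} ∪ {x | ∃ k ∈ C, x = b * k * b⁻¹} ∪ {x | ∃ k ∈ C, x = c * k * c⁻¹})) :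
    Ang C U (√(2 / Nat.card U)) := by
  sorry

end Pool.Agent.Helper35.CR
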