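import Pool.Agent.Helper35.CR.Defs

/-!
# Project CR (MP_434e52_an, S04498), block CR-1: the criterion for property (T)

PROOF of `kt_of_ang`. `E`, `π` a unitary representation of `G`. `P i ξ = (1 / |X i|) ∑_{x ∈ X i} π x ξ` is the orthogonal projection onto the `X i`-invariant vectors (self adjoint idempotent), `Q i = 1 - P i`,
`‖Q i ξ‖ ≤ max_{x ∈ X i} ‖π x ξ - ξ‖`.
(A) For `i ≠ j` and all `ξ`: `-ε (‖Q i ξ‖² + ‖Q j ξ‖²) ≤ 2 Re ⟪Q i ξ, Q j ξ⟫`. Proof: subtract from `ξ` its projection to the closed subspace of the vectors invariant under both (`Q i`, `Q j` kill it), so assume that `ξ` is orthogonal to it. Then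
`|⟪P i ξ, P j ξ⟫| ≤ ε ‖P i ξ‖ ‖P j ξ‖` by `Ang` (`P j ξ` is orthogonal to the invariant vectors `θ`: `⟪θ, P j ξ⟫ = ⟪P j θ, ξ⟫ = ⟪θ, ξ⟫ = 0`). Put `x = ‖ξ‖²`, `N = ‖P i ξ‖² + ‖P j ξ‖²`, `r = 2 Re ⟪P i ξ, P j ξ⟫`, `|r| ≤ ε N`.
Cauchy-Schwarz for `⟪ξ, P i ξ + P j ξ⟫ = N`: `N² ≤ x (N + r)`, so also `N ≤ (1 + ε) x`. The claim is `0 ≤ 2 x - 2 N + r + ε (2 x - N)`; multiplied by `x` and with `x r ≥ N² - x N` it is `≥ (2 x - N) (x (1 + ε) - N) ≥ 0` (`N ≤ 2 x` always; `x = 0` is trivial).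
(B) `Δ = ∑ i, Q i`, `c = 1 - (n - 1) ε > 0`. By (A) `‖Δ ξ‖² = ∑ ‖Q i ξ‖² + ∑_{i < j} 2 Re ⟪Q i ξ, Q j ξ⟫ ≥ c ∑ ‖Q i ξ‖² = c ⟪Δ ξ, ξ⟫`. `0 ≤ Δ ≤ n`. `ξ 0 = v`, `ξ (k + 1) = ξ k - (1 / n) Δ (ξ k)`, `e k = ⟪Δ (ξ k), ξ k⟫`:
`e (k + 1) ≤ e k - (1 / n) ‖Δ (ξ k)‖² ≤ (1 - c / n) e k` (use `⟪Δ Δ ξ, Δ ξ⟫ ≤ n ‖Δ ξ‖²`), `‖ξ (k + 1) - ξ k‖² = ‖Δ (ξ k)‖² / n² ≤ e k / n` (`‖Δ ξ‖² ≤ n ⟪Δ ξ, ξ⟫`, Cauchy-Schwarz for the sum of the `Q i`). So `ξ k` is Cauchy, its limit `w` satisfies `⟪Δ w, w⟫ = 0`,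
so all `Q i w = 0` and `w` is invariant under `⨆ X i = ⊤`, and `‖w - v‖ ≤ C √(e 0) < 1` if the Kazhdan constant is small (`e 0 = ∑ ‖Q i v‖² ≤ n δ²`), so `w ≠ 0`. `S` = the union of the `X i` (finite).
-/

set_option autoImplicit false

namespace Pool.Agent.Helper35.CR

/-- **Criterion.** Finitely many finite subgroups with small pairwise angles which generate the group: property (T). -/
theorem kt_of_ang {G : Type} [Group G] {n : ℕ} (h0 : 0 < n) (X : Fin n → Subgroup G) (hf : ∀ i, Finite (X i)) (hX : ⨆ i, X i = ⊤) {ε : ℝ} (hε : 0 ≤ ε)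
    (hn : ((n : ℝ) - 1) * ε < 1) (h : ∀ i j, i < j → Ang (X i) (X j) ε) : KT G := by
  sorry

end Pool.Agent.Helper35.CR
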