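import Mathlib

/-!
# Project CR (MP_434e52_an, S04498): definitions

`KT G`: property (T) in the form of the frozen statement. `cm G`: the commutant of the right translations of `ℓ²(G)`, `LIso G H`: the commutants are `*`-isomorphic, `VI G H`: virtual isomorphism.
`Ang X Y ε`: the angle between the `X`-invariant and the `Y`-invariant vectors in every unitary representation.
`act α K hK`: the action of `Γ` on an invariant group `K` of functions `X → Circle`.
-/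

set_option autoImplicit false

namespace Pool.Agent.Helper35.CR

/-- Property (T). -/
def KT (G : Type) [Group G] : Prop :=
  ∃ S : Finset G, ∃ ε : ℝ, 0 < ε ∧
    ∀ (E : Type) [NormedAddCommGroup E] [InnerProductSpace ℂ E] [CompleteSpace E] (π : G →* (E →L[ℂ] E)),
      (∀ g : G, π g ∈ unitary (E →L[ℂ] E)) → (∃ v : E, ‖v‖ = 1 ∧ ∀ s ∈ S, ‖(π s) v - v‖ < ε) → ∃ w : E, w ≠ 0 ∧ ∀ g : G, (π g) w = w

/-- The commutant of the right translations. -/
def cm (G : Type) [Group G] : Set (lp (fun _ : G => ℂ) 2 →L[ℂ] lp (fun _ : G => ℂ) 2) :=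
  {T | ∀ g : G, ∀ f f' : lp (fun _ : G => ℂ) 2, (∀ x : G, f' x = f (x * g)) → ∀ x : G, (T f') x = (T f) (x * g)}

/-- The group von Neumann algebras are isomorphic. -/
def LIso (G H : Type) [Group G] [Group H] : Prop :=
  ∃ Φ : (lp (fun _ : G => ℂ) 2 →L[ℂ] lp (fun _ : G => ℂ) 2) → (lp (fun _ : H => ℂ) 2 →L[ℂ] lp (fun _ : H => ℂ) 2),
    Set.BijOn Φ (cm G) (cm H) ∧ ∀ x ∈ cm G, ∀ y ∈ cm G,
      Φ (x + y) = Φ x + Φ y ∧ Φ (x * y) = Φ x * Φ y ∧ Φ (star x) = star (Φ x) ∧ ∀ c : ℂ, Φ (c • x) = c • Φ x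

/-- Virtual isomorphism. -/
def VI (G H : Type) [Group G] [Group H] : Prop :=
  ∃ (F : Subgroup G) (K : Subgroup H) (_ : F.Normal) (_ : K.Normal), Finite F ∧ Finite K ∧
    ∃ (G₀ : Subgroup (G ⧸ F)) (H₀ : Subgroup (H ⧸ K)), G₀.index ≠ 0 ∧ H₀.index ≠ 0 ∧ Nonempty (G₀ ≃* H₀)

/-- The angle between two subgroups is at most `ε` (cosine) in every unitary representation. -/
def Ang {G : Type} [Group G] (X Y : Subgroup G) (ε : ℝ) : Prop :=
  ∀ (E : Type) [NormedAddCommGroup E] [InnerProductSpace ℂ E] [CompleteSpace E] (π : G →* (E →L[ℂ] E)), (∀ g : G, π g ∈ unitary (E →L[ℂ] E)) →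
    ∀ ζ η : E, (∀ x ∈ X, π x ζ = ζ) → (∀ y ∈ Y, π y η = η) →
      (∀ θ : E, (∀ x ∈ X, π x θ = θ) → (∀ y ∈ Y, π y θ = θ) → inner ℂ θ η = 0) → ‖(inner ℂ ζ η : ℂ)‖ ≤ ε * ‖ζ‖ * ‖η‖

section Act

variable {X Γ : Type} [Group Γ] (α : Γ →* Equiv.Perm X) (K : Subgroup (X → Circle))

/-- The action on an invariant group of functions. -/
def act (hK : ∀ γ : Γ, ∀ k ∈ K, (fun x => k (α γ x)) ∈ K) : Γ →* MulAut K where
  toFun γ :=
    { toFun := fun k => ⟨fun x => k.1 (α γ⁻¹ x), hK γ⁻¹ k.1 k.2⟩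
      invFun := fun k => ⟨fun x => k.1 (α γ x), hK γ k.1 k.2⟩
      left_inv := fun k => by
        ext x
        simp
      right_inv := fun k => by
        ext x
        simp
      map_mul' := fun k k' => rfl }
  map_one' := by
    ext k x
    simp
  map_mul' γ γ' := by
    ext k x
    simp [_root_.mul_inv_rev, Equiv.Perm.mul_apply]

theorem act_apply (hK : ∀ γ : Γ, ∀ k ∈ K, (fun x => k (α γ x)) ∈ K) (γ : Γ) (k : K) (x : X) : (act α K hK γ k).1 x = k.1 (α γ⁻¹ x) := rfl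

end Act

end Pool.Agent.Helper35.CR
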