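import Pool.Agent.Helper35.CR.GTd

/-!
# Project CR (MP_434e52_an, S04498), block CR-10b: the Heisenberg pairs

PROOF. `ang_heis` with `Z = (the group of the inr (el (C c * f₀ * g₀)), c ∈ F)`, a subgroup of `GG F` (`Z = map inr ((Um (ik) (f₀ g₀)).subgroupOf (Gam F))`; `Um (ik) (f₀ g₀) ≤ Gam F` because its elements are commutators, see below, `f₀ ≠ 0`, `g₀ ≠ 0`).
`jk` case (`ang_ijk`): `x = el f (ij)`, `y = el g (jk)`, different `i, j, k`: `x⁻¹ y⁻¹ x y = el (f g) (ik)` and `el (ik)` commutes with both. Second case (`ang_iji`): `x = el f (ij)`, `y = el g (ki)`: `x⁻¹ y⁻¹ x y = el (- f g) (kj)`. Matrix identities for `transvection` / `single` (for concrete `i, j, k : Fin 3` also by `ext` and `fin_cases`).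
`b ↦ ± a b` is a bijection of `F` for `a ≠ 0`. `Nat.card X = Nat.card F` (`card_XU` in `GTa.lean` proves the same; prove it here privately again: injectivity of `a ↦ el h (C a * f₀)`).
-/

set_option autoImplicit false

open Polynomial Matrix

namespace Pool.Agent.Helper35.CR

variable (F : Type) [Field F] [Finite F]

theorem ang_0112 : Ang (XU F h01 1) (XU F h12 1) (1 / √(Nat.card F)) := by
  sorry

theorem ang_0120 : Ang (XU F h01 1) (XU F h20 X) (1 / √(Nat.card F)) := by
  sorry

theorem ang_1220 : Ang (XU F h12 1) (XU F h20 X) (1 / √(Nat.card F)) := by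
  sorry

end Pool.Agent.Helper35.CR
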