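import Pool.Agent.Helper35.CR.GTd

/-!
# Project CR (MP_434e52_an, S04498), block CR-10c: the pair of the characters at `e₃` and `e₂₃(F)`

PROOF. `ang_quad` with `C = XC F`, `U = XU F h12 1`, `N = map inl ((⨆ a : F, Cv' F (e₃ + a e₂)).subgroupOf (KS' F (S0 F)))` (finite: finitely many finite subgroups of a commutative group; commutative). `u_a = inr (el h12 (C a))` maps `e₃` to `e₃ + a e₂` (`e₂ = Pi.single 1 1`), so `u_a * inl k * u_a⁻¹ = inl (act .. k)` with
`act u_a (χ (x e₃, u e₃)) = χ (x (u_a⁻¹...)...)`: `act γ k (x) = k (aX γ⁻¹ x)`, `(aX γ⁻¹ x).1 v = x.1 (γ v)`, so `u_a C u_a⁻¹ = inl (Cv' F (u_a e₃)) = inl (Cv' F (e₃ + a e₂))`, and `u_b` maps `e₃ + a e₂` to `e₃ + (a + b) e₂`, so `N` is normalised by `U`.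
Three generate `N`: for a linear form `x`: `x (e₃ + d e₂) = x e₃ + d x e₂`; for a quadratic form `u`: `u (e₃ + d e₂) = u e₃ + d polar + d² u e₂`: polynomials of degree at most `2` in `d`. For different `a₁, a₂, a₃ ∈ F` and `d ∈ F` there are `l₁, l₂, l₃ ∈ F` (Lagrange) with `g d = l₁ g a₁ + l₂ g a₂ + l₃ g a₃` for all polynomials
`g` of degree at most `2`. So `χ (x (e₃ + d e₂), u (e₃ + d e₂)) = ∏ χ_i (x (e₃ + a_i e₂), u (e₃ + a_i e₂))` with `χ_i p = χ (l_i • p)`, a character of `F × F`.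
`Nat.card U = Nat.card F` (injectivity of `a ↦ el h12 (C a)`).
-/

set_option autoImplicit false

open Polynomial Matrix

namespace Pool.Agent.Helper35.CR

variable (F : Type) [Field F] [Finite F]

theorem ang_C12 : Ang (XC F) (XU F h12 1) (√(2 / Nat.card F)) := by
  sorry

end Pool.Agent.Helper35.CR
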