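import Pool.Agent.Helper35.CR.GTa
import Pool.Agent.Helper35.CR.GTb
import Pool.Agent.Helper35.CR.GTc

/-!
# Project CR (MP_434e52_an, S04498): property (T) of `KS' ⋊ Γ`
-/

set_option autoImplicit false

open Polynomial Matrix

namespace Pool.Agent.Helper35.CR

variable (F : Type) [Field F] [Finite F]

theorem kt_G (hq : 32 ≤ Nat.card F) : KT (GG F) := by
  have hq' : (32 : ℝ) ≤ Nat.card F := by exact_mod_cast hq
  have h1 : 1 / √(Nat.card F : ℝ) ≤ 1 / 4 := by
    refine one_div_le_one_div_of_le (by norm_num) ?_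
    refine Real.le_sqrt_of_sq_le ?_
    linarith
  have h2 : √(2 / (Nat.card F : ℝ)) ≤ 1 / 4 := by
    refine Real.sqrt_le_iff.2 ⟨by norm_num, ?_⟩
    rw [div_le_iff₀ (by linarith)]
    linarith
  refine kt_of_ang (n := 4) (by norm_num) ![XC F, XU F h01 1, XU F h12 1, XU F h20 X] (fun i => ?_) ?_ (ε := 1 / 4) (by norm_num) (by norm_num) fun i j hij => ?_
  · fin_cases i
    · exact fin_XC F
    · exact fin_XU F h01 1
    · exact fin_XU F h12 1
    · exact fin_XU F h20 X
  · refine top_unique ?_
    rw [← gen F]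
    exact sup_le (sup_le (sup_le (le_iSup (![XC F, XU F h01 1, XU F h12 1, XU F h20 X]) 0) (le_iSup (![XC F, XU F h01 1, XU F h12 1, XU F h20 X]) 1))
      (le_iSup (![XC F, XU F h01 1, XU F h12 1, XU F h20 X]) 2)) (le_iSup (![XC F, XU F h01 1, XU F h12 1, XU F h20 X]) 3)
  · have h3 := fin_XC F
    fin_cases i <;> fin_cases j <;> first | (exact absurd hij (by decide)) | skip
    · exact (ang_comm (comm01 F)).mono (by norm_num)
    · exact (ang_C12 F).mono h2
    · exact (ang_comm (comm20 F)).mono (by norm_num)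
    · exact (ang_0112 F).mono h1
    · exact (ang_0120 F).mono h1
    · exact (ang_1220 F).mono h1

end Pool.Agent.Helper35.CR
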