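import Pool.Agent.Helper35.CR.GTd

/-!
# Project CR (MP_434e52_an, S04498), block CR-10a: generation, finiteness, commuting pairs

`gen`: the three `XU` generate `range inr` (definition of `Gam`; `Subgroup.map`, `subgroupOf` of the three subgroups whose `⨆` is `Gam F`); for `γ ∈ Gam F`: `inr γ * inl k * (inr γ)⁻¹ = inl (act .. γ k)` (`SemidirectProduct.inl_aut`), and `act γ` maps `Cv' F e₃` onto `Cv' F (γ e₃)` (`aX_fst`, `aX_snd`, `act_apply`), and these generate
`KS' F (S0 F)` (definition of `KS'`, `S0`); `range inl ⊔ range inr = ⊤`.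
`fin_XC`: `Cv' F v` is the image of the finite set of the characters of `F × F` (`AddChar.circleEquivComplex` and the finiteness of `AddChar (F × F) ℂ`). `card_XU`: `a ↦ el h (C a * f₀)` is injective for `f₀ ≠ 0` (entry `i j`), `Um h f₀ ≤ Gam F`.
`comm01`, `comm20`: for `k = χ (x e₃, u e₃)` and `γ = e₁₂(a)` or `e₃₁(a X)`: `γ⁻¹ e₃ = e₃`, so `act γ k = k`.
-/

set_option autoImplicit false

open Polynomial Matrix

namespace Pool.Agent.Helper35.CR

variable (F : Type) [Field F]

theorem gen : XC F ⊔ XU F h01 1 ⊔ XU F h12 1 ⊔ XU F h20 X = ⊤ := by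
  sorry

theorem fin_XC [Finite F] : Finite (XC F) := by
  sorry

theorem fin_XU [Finite F] {i j : Fin 3} (h : i ≠ j) (f₀ : F[X]) : Finite (XU F h f₀) := by
  sorry

theorem card_XU {i j : Fin 3} (h : i ≠ j) {f₀ : F[X]} (h0 : f₀ ≠ 0) (hU : Um h f₀ ≤ Gam F) : Nat.card (XU F h f₀) = Nat.card F := by
  sorry

theorem comm01 : ∀ x ∈ XC F, ∀ y ∈ XU F h01 1, x * y = y * x := by
  sorry

theorem comm20 : ∀ x ∈ XC F, ∀ y ∈ XU F h20 X, x * y = y * x := by
  sorry

end Pool.Agent.Helper35.CR
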