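import Pool.Agent.Helper35.CR.Gam
import Pool.Agent.Helper35.CR.Crit
import Pool.Agent.Helper35.CR.Ang1
import Pool.Agent.Helper35.CR.Ang2

/-!
# Project CR (MP_434e52_an, S04498): the group `GG F = KS' ⋊ Γ` and its four finite subgroups (definitions)
-/

set_option autoImplicit false

open Polynomial Matrix

namespace Pool.Agent.Helper35.CR

variable (F : Type) [Field F]

/-- The third basis vector. -/
noncomputable def e3 : Fin 3 → F[X] := Pi.single 2 1

/-- The group with property (T). -/
abbrev GG : Type := KS' F (S0 F) ⋊[act (aX (rG F)) (KS' F (S0 F)) (inv_KS' (rG F) (hS0 F))] Gam F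

/-- The characters at `e₃`. -/
noncomputable def XC : Subgroup (GG F) := ((Cv' F (e3 F)).subgroupOf (KS' F (S0 F))).map SemidirectProduct.inl

/-- The root subgroups. -/
noncomputable def XU {i j : Fin 3} (h : i ≠ j) (f₀ : F[X]) : Subgroup (GG F) := ((Um h f₀).subgroupOf (Gam F)).map SemidirectProduct.inr

end Pool.Agent.Helper35.CR
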