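import Pool.Agent.Helper35.CR.Wit

/-!
# Project CR (MP_434e52_an, S04498): the group `Γ = Gam F < SL₃(F[t])`, generated by `e₁₂(F)`, `e₂₃(F)`, `e₃₁(F t)`, and its action on `F[t]³`
-/

set_option autoImplicit false

open Polynomial Matrix

namespace Pool.Agent.Helper35.CR

variable {F : Type} [Field F]

/-- Elementary matrices. -/
noncomputable def el {i j : Fin 3} (h : i ≠ j) (f : F[X]) : SpecialLinearGroup (Fin 3) F[X] := ⟨transvection i j f, det_transvection_of_ne i j h f⟩

theorem el_mul {i j : Fin 3} (h : i ≠ j) (f g : F[X]) : el h f * el h g = el h (f + g) := by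
  refine Subtype.ext ?_
  exact transvection_mul_transvection_same i j h f g

theorem el_zero {i j : Fin 3} (h : i ≠ j) : el h (0 : F[X]) = 1 := by
  refine Subtype.ext ?_
  exact transvection_zero i j

theorem el_inv {i j : Fin 3} (h : i ≠ j) (f : F[X]) : (el h f)⁻¹ = el h (-f) := by
  rw [inv_eq_iff_mul_eq_one, el_mul, add_neg_cancel, el_zero]

/-- The elementary matrices with coefficient in `F f₀`. -/
noncomputable def Um {i j : Fin 3} (h : i ≠ j) (f₀ : F[X]) : Subgroup (SpecialLinearGroup (Fin 3) F[X]) where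
  carrier := {g | ∃ a : F, g = el h (C a * f₀)}
  mul_mem' := by
    rintro g g' ⟨a, rfl⟩ ⟨b, rfl⟩
    exact ⟨a + b, by rw [el_mul, C_add, add_mul]⟩
  one_mem' := ⟨0, by rw [C_0, zero_mul, el_zero]⟩
  inv_mem' := by
    rintro g ⟨a, rfl⟩
    exact ⟨-a, by rw [el_inv, C_neg, neg_mul]⟩

theorem h01 : (0 : Fin 3) ≠ 1 := by decide

theorem h12 : (1 : Fin 3) ≠ 2 := by decide

theorem h20 : (2 : Fin 3) ≠ 0 := by decide

variable (F)

/-- The group `Γ`. -/
noncomputable def Gam : Subgroup (SpecialLinearGroup (Fin 3) F[X]) := Um h01 (1 : F[X]) ⊔ Um h12 (1 : F[X]) ⊔ Um h20 (X : F[X])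

variable {F}

/-- The action of `SL₃(F[t])` on the column vectors. -/
noncomputable def rSL : SpecialLinearGroup (Fin 3) F[X] →* ((Fin 3 → F[X]) ≃ₗ[F] (Fin 3 → F[X])) where
  toFun g :=
    { toFun := fun v => (g : Matrix (Fin 3) (Fin 3) F[X]).mulVec v
      invFun := fun v => ((g⁻¹ : SpecialLinearGroup (Fin 3) F[X]) : Matrix (Fin 3) (Fin 3) F[X]).mulVec v
      map_add' := fun v w => mulVec_add _ _ _
      map_smul' := fun a v => by
        rw [RingHom.id_apply, mulVec_smul]
      left_inv := fun v => by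
        have h : ((g⁻¹ : SpecialLinearGroup (Fin 3) F[X]) : Matrix (Fin 3) (Fin 3) F[X]) * (g : Matrix (Fin 3) (Fin 3) F[X]) = 1 :=
          congrArg Subtype.val (inv_mul_cancel g)
        exact (mulVec_mulVec v _ _).trans ((congrArg (fun M => M.mulVec v) h).trans (one_mulVec v))
      right_inv := fun v => by
        have h : (g : Matrix (Fin 3) (Fin 3) F[X]) * ((g⁻¹ : SpecialLinearGroup (Fin 3) F[X]) : Matrix (Fin 3) (Fin 3) F[X]) = 1 :=
          congrArg Subtype.val (mul_inv_cancel g)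
        exact (mulVec_mulVec v _ _).trans ((congrArg (fun M => M.mulVec v) h).trans (one_mulVec v)) }
  map_one' := by
    ext v : 1
    exact one_mulVec v
  map_mul' g g' := by
    ext v : 1
    exact (mulVec_mulVec v (g : Matrix (Fin 3) (Fin 3) F[X]) (g' : Matrix (Fin 3) (Fin 3) F[X])).symm

variable (F)

/-- The representation of `Γ`. -/
noncomputable def rG : Gam F →* ((Fin 3 → F[X]) ≃ₗ[F] (Fin 3 → F[X])) := rSL.comp (Gam F).subtype

/-- The orbit of the third basis vector. -/
def S0 : Set (Fin 3 → F[X]) := {v | ∃ γ : Gam F, v = rG F γ (Pi.single 2 1)}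

theorem hS0 (γ : Gam F) (v : Fin 3 → F[X]) (hv : v ∈ S0 F) : rG F γ v ∈ S0 F := by
  obtain ⟨γ', rfl⟩ := hv
  exact ⟨γ * γ', by rw [map_mul]; rfl⟩

end Pool.Agent.Helper35.CR
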