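import Pool.Agent.Helper35.CR.Gam

/-!
# Project CR (MP_434e52_an, S04498), block CR-8: finite index subgroups of `Γ`

`el_mem`: `el h f ∈ Gam F` for `f` divisible by `X` (all `i ≠ j`), and for all `f` if `i < j`. Proof: commutators. For different `i, j, k`: `el f (ij) * el g (jk) * (el f (ij))⁻¹ * (el g (jk))⁻¹ = el (f g) (ik)`. `A i j = {f | el f ∈ Gam F}` is an additive group; it contains `F` for `(0,1)`, `(1,2)`, `(0,2)`, and `F X` for `(2,0)`, `(1,0)`, `(2,1)`
(`(1,2),(2,0) → (1,0)`, `(2,0),(0,1) → (2,1)`), and `A i k ⊇ A i j * A j k`: so by induction on `n` `F X ^ n` for all `n ≥ 1` (`(0,2)(2,1) → (0,1)`, `(1,0)(0,2) → (1,2)`, `(0,1)(1,2) → (0,2)`, `(1,2)(2,0) → (1,0)`, `(2,1)(1,0) → (2,0)`, `(2,0)(0,1) → (2,1)`, degrees add; start: degree 0 above, 1 below the diagonal).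
`inf_S0`: `e₃ + f e₁ ∈ S0` for all `f` with `X ∣ f`.
`gam_M`: see /team-store/h35_CR.md, (M). For `i ≠ j` the set `{f | X ∣ f, el h f ∈ Γ₁}` is infinite (finite index subgroup of the infinite group `{el h f | X ∣ f}`). With `E = single i j 1`, `u = 1 + f E`, `u⁻¹ = 1 - f E`: `u a u⁻¹ = a + f (E a - a E) - f² E a E`. `a` commutes with it for infinitely many `f`: so
`f [a, E a - a E] = f² [a, E a E]` for two different `f ≠ 0`, so `[a, E a E] = 0`, `E a E = a j i • E`. If `a j i ≠ 0`, then `a E = E a`, whose entry `(i, i)` is `0 = a j i`... (`(a E) i i = 0` as `i ≠ j`, `(E a) i i = a j i`): contradiction. So `a` is diagonal, the entries are units of `F[X]` (product `1`), so constants, and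
the constant coefficients of the diagonal entries of the elements of `Gam F` are `1` (the elements of `Gam F` are upper unitriangular modulo `X`: closure induction), so `a = 1`.
-/

set_option autoImplicit false

open Polynomial Matrix

namespace Pool.Agent.Helper35.CR

variable (F : Type) [Field F]

theorem el_mem {i j : Fin 3} (h : i ≠ j) {f : F[X]} (hf : (X : F[X]) ∣ f) : el h f ∈ Gam F := by
  sorry

theorem inf_S0 : (S0 F).Infinite := by
  sorry

theorem gam_M (Γ₁ : Subgroup (Gam F)) (h1 : Γ₁.index ≠ 0) (a : Gam F) (ha : ∀ u ∈ Γ₁, a * (u * a * u⁻¹) = u * a * u⁻¹ * a) : a = 1 := by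
  sorry

theorem countable_Gam [Finite F] : Countable (Gam F) := by
  sorry

end Pool.Agent.Helper35.CR
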