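import Pool.Agent.Helper35.CR.Defs

/-!
# Project CR (MP_434e52_an, S04498), block CR-9: the semidirect products are not virtually isomorphic

PROOF. `G = A ⋊ Γ`, `H = B ⋊ Γ`. Hypothesis (M) = `hΓ`.
(a) A finite normal subgroup `N` of `A ⋊ Γ` lies in `A` (`range inl` = kernel of `rightHom`): the centralizer of `N` has finite index (`G` acts on the finite set `N` by conjugation), its image `Γ₁` in `Γ` has finite index and commutes with the image of `N`, so (M) applies to every `a` in the image of `N` (`u a u⁻¹ = a`): `a = 1`.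
(b) Let `N` be a finite normal subgroup of `G`, `G₀ ≤ G ⧸ N` of finite index. By (a) there is `π : G ⧸ N →* Γ` (lift of `rightHom`) with commutative kernel (the image of `A`). If `D ≤ G₀` is commutative and normal in `G₀`, then `D ≤ ker π`: `Γ₁ = π G₀` has finite index in `Γ` (`π` is surjective); for `a ∈ π D`, `u ∈ Γ₁`: `u a u⁻¹ ∈ π D`
commutes with `a`, so `a = 1` by (M). And `ker π ⊓ G₀` is commutative and normal in `G₀`. So it is the largest commutative normal subgroup of `G₀`, and an isomorphism `G₀ ≃* H₀` maps one to the other.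
(c) Every element of `ker π` (for `G`) has square `1` (`hA`). So all elements of `ker π_H ⊓ H₀` have square `1`: for all `b ∈ B` with `mk (inl b) ∈ H₀`: `inl b ^ 2 ∈ K` (finite). `B₁ = {b | mk (inl b) ∈ H₀}` has finite index in `B`, so `{b ^ 2 | b ∈ B}` is contained in finitely many translates of the finite set `{b ^ 2 | b ∈ B₁}`
(`B` commutative: `(b c)² = b² c²`): contradiction to `hB`.
-/

set_option autoImplicit false

namespace Pool.Agent.Helper35.CR

private theorem fin86 {Γ G : Type} [Group Γ] [Group G] (r : G →* Γ) (hr : Function.Surjective r)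
    (hΓ : ∀ Γ₁ : Subgroup Γ, Γ₁.index ≠ 0 → ∀ a : Γ, (∀ u ∈ Γ₁, a * (u * a * u⁻¹) = u * a * u⁻¹ * a) → a = 1)
    (N : Subgroup G) [N.Normal] [Finite N] : ∀ n ∈ N, r n = 1 := by
  intro n hn
  let c : G →* MulAut N := MulAut.conjNormal
  have hfin : Finite (MulAut N) := Finite.of_injective (fun f : MulAut N => (f : N → N))
    (fun f g h => MulEquiv.ext (congrFun h))
  have hc : c.ker.index ≠ 0 := by
    rw [Subgroup.index_ker]
    exact Nat.card_pos.ne'
  have hm : (c.ker.map r).index ≠ 0 := fun h0 => by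
    have h1 := Subgroup.index_map_dvd c.ker hr
    rw [h0] at h1
    exact hc (Nat.eq_zero_of_zero_dvd h1)
  refine hΓ _ hm (r n) ?_
  rintro _ ⟨g, hg, rfl⟩
  have h1 : c g = 1 := hg
  have h2 : g * n * g⁻¹ = n := by
    have h3 := congrArg (fun f : MulAut N => ((f ⟨n, hn⟩ : N) : G)) h1
    simpa [c, MulAut.conjNormal_apply] using h3
  have h4 : r g * r n * (r g)⁻¹ = r n := by
    rw [← map_mul, ← map_inv, ← map_mul, h2]
  rw [h4]

private theorem ab86 {Γ G : Type} [Group Γ] [Group G] (r : G →* Γ) (hr : Function.Surjective r)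
    (hΓ : ∀ Γ₁ : Subgroup Γ, Γ₁.index ≠ 0 → ∀ a : Γ, (∀ u ∈ Γ₁, a * (u * a * u⁻¹) = u * a * u⁻¹ * a) → a = 1)
    (G₀ : Subgroup G) (hG : G₀.index ≠ 0) (D : Subgroup G₀) (hD : D.Normal)
    (hc : ∀ x ∈ D, ∀ y ∈ D, x * y = y * x) : ∀ d ∈ D, r (d : G) = 1 := by
  intro d hd
  have hm : (G₀.map r).index ≠ 0 := fun h0 => by
    have h1 := Subgroup.index_map_dvd G₀ hr
    rw [h0] at h1
    exact hG (Nat.eq_zero_of_zero_dvd h1)
  refine hΓ _ hm (r d) ?_
  rintro _ ⟨g, hg, rfl⟩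
  have h1 := hc d hd (⟨g, hg⟩ * d * ⟨g, hg⟩⁻¹) (hD.conj_mem d hd ⟨g, hg⟩)
  have h2 := congrArg (fun x : G₀ => r (x : G)) h1
  simpa using h2

theorem not_vi {Γ A B : Type} [Group Γ] [CommGroup A] [CommGroup B] (φ : Γ →* MulAut A) (φ' : Γ →* MulAut B)
    (hΓ : ∀ Γ₁ : Subgroup Γ, Γ₁.index ≠ 0 → ∀ a : Γ, (∀ u ∈ Γ₁, a * (u * a * u⁻¹) = u * a * u⁻¹ * a) → a = 1) (hA : ∀ a : A, a ^ 2 = 1)
    (hB : (Set.range fun b : B => b ^ 2).Infinite) : ¬ VI (A ⋊[φ] Γ) (B ⋊[φ'] Γ) := by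
  rintro ⟨F, K, hFn, hKn, hF, hK, G₀, H₀, hG, hH, ⟨e⟩⟩
  have hrG : Function.Surjective (SemidirectProduct.rightHom : A ⋊[φ] Γ →* Γ) :=
    SemidirectProduct.rightHom_surjective
  have hrH : Function.Surjective (SemidirectProduct.rightHom : B ⋊[φ'] Γ →* Γ) :=
    SemidirectProduct.rightHom_surjective
  have hFk := fin86 _ hrG hΓ F
  have hKk := fin86 _ hrH hΓ K
  let πG : (A ⋊[φ] Γ) ⧸ F →* Γ := QuotientGroup.lift F SemidirectProduct.rightHom hFk
  let πH : (B ⋊[φ'] Γ) ⧸ K →* Γ := QuotientGroup.lift K SemidirectProduct.rightHom hKk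
  have hπG : Function.Surjective πG := by
    intro γ
    obtain ⟨g, hg⟩ := hrG γ
    exact ⟨QuotientGroup.mk g, hg⟩
  -- the elements of the kernels
  have kG : ∀ x : (A ⋊[φ] Γ) ⧸ F, πG x = 1 → ∃ a : A, x = QuotientGroup.mk (SemidirectProduct.inl a) := by
    intro x hx
    induction x using QuotientGroup.induction_on with
    | H g =>
      have h1 : SemidirectProduct.rightHom g = 1 := hx
      refine ⟨g.left, ?_⟩
      congr 1
      apply SemidirectProduct.ext
      · simp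
      · simpa using h1
  have kH : ∀ x : (B ⋊[φ'] Γ) ⧸ K, πH x = 1 → ∃ b : B, x = QuotientGroup.mk (SemidirectProduct.inl b) := by
    intro x hx
    induction x using QuotientGroup.induction_on with
    | H g =>
      have h1 : SemidirectProduct.rightHom g = 1 := hx
      refine ⟨g.left, ?_⟩
      congr 1
      apply SemidirectProduct.ext
      · simp
      · simpa using h1
  -- the kernel in `H₀`
  let DH : Subgroup H₀ := (πH.comp H₀.subtype).ker
  have hDHc : ∀ x ∈ DH, ∀ y ∈ DH, x * y = y * x := by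
    intro x hx y hy
    obtain ⟨a, ha⟩ := kH x hx
    obtain ⟨b, hb⟩ := kH y hy
    apply Subtype.ext
    rw [Subgroup.coe_mul, Subgroup.coe_mul, ha, hb, ← QuotientGroup.mk_mul, ← QuotientGroup.mk_mul,
      ← map_mul, ← map_mul, mul_comm]
  have hDHn : DH.Normal := MonoidHom.normal_ker _
  let D : Subgroup G₀ := DH.map e.symm.toMonoidHom
  have hDn : D.Normal := hDHn.map _ e.symm.surjective
  have hDc : ∀ x ∈ D, ∀ y ∈ D, x * y = y * x := by
    rintro _ ⟨x, hx, rfl⟩ _ ⟨y, hy, rfl⟩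
    rw [← map_mul, ← map_mul, hDHc x hx y hy]
  have hsq : ∀ h : H₀, πH (h : (B ⋊[φ'] Γ) ⧸ K) = 1 → h ^ 2 = 1 := by
    intro h hh
    have h1 : πG ((e.symm h : G₀) : (A ⋊[φ] Γ) ⧸ F) = 1 :=
      ab86 πG hπG hΓ G₀ hG D hDn hDc _ ⟨h, hh, rfl⟩
    obtain ⟨a, ha⟩ := kG _ h1
    have h2 : (e.symm h) ^ 2 = 1 := by
      apply Subtype.ext
      rw [Subgroup.coe_pow, ha, ← QuotientGroup.mk_pow, ← map_pow, hA, map_one]
      rfl
    have h3 := congrArg e h2
    simpa using h3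
  -- the finite index subgroup of `B`
  let i : B →* (B ⋊[φ'] Γ) ⧸ K := (QuotientGroup.mk' K).comp SemidirectProduct.inl
  let B₁ : Subgroup B := H₀.comap i
  have hB₁ : B₁.FiniteIndex := by
    refine ⟨?_⟩
    rw [Subgroup.index_comap]
    intro h0
    apply hH
    rw [← Subgroup.relIndex_top_right]
    exact Subgroup.relIndex_eq_zero_of_le_right le_top h0
  have hBq : Finite (B ⧸ B₁) := Subgroup.finite_quotient_of_finiteIndex
  have hsB : ∀ b ∈ B₁, (SemidirectProduct.inl (b ^ 2) : B ⋊[φ'] Γ) ∈ K := by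
    intro b hb
    have h1 := hsq ⟨i b, hb⟩ (by
      show SemidirectProduct.rightHom (SemidirectProduct.inl b : B ⋊[φ'] Γ) = 1
      simp)
    have h2 := congrArg (fun x : H₀ => (x : (B ⋊[φ'] Γ) ⧸ K)) h1
    have h3 : (QuotientGroup.mk (SemidirectProduct.inl (b ^ 2)) : (B ⋊[φ'] Γ) ⧸ K) = 1 := by
      rw [map_pow, QuotientGroup.mk_pow]
      exact h2
    rwa [QuotientGroup.eq_one_iff] at h3
  have hKfin : (K : Set (B ⋊[φ'] Γ)).Finite := Set.toFinite _
  have hpre : ((SemidirectProduct.inl : B →* B ⋊[φ'] Γ) ⁻¹' (K : Set (B ⋊[φ'] Γ))).Finite :=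
    hKfin.preimage (SemidirectProduct.inl_injective.injOn)
  apply hB
  refine ((Set.finite_univ (α := B ⧸ B₁)).image2 (fun (q : B ⧸ B₁) (x : B) => q.out ^ 2 * x) hpre).subset ?_
  rintro _ ⟨b, rfl⟩
  refine ⟨QuotientGroup.mk b, Set.mem_univ _, ((QuotientGroup.mk b : B ⧸ B₁).out⁻¹ * b) ^ 2, ?_, ?_⟩
  · apply hsB
    have h1 := QuotientGroup.out_eq' (QuotientGroup.mk b : B ⧸ B₁)
    rw [QuotientGroup.eq] at h1
    exact h1
  · show (QuotientGroup.mk b : B ⧸ B₁).out ^ 2 * ((QuotientGroup.mk b : B ⧸ B₁).out⁻¹ * b) ^ 2 = b ^ 2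
    rw [← mul_pow, mul_inv_cancel_left]

end Pool.Agent.Helper35.CR
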