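import Pool.Agent.Helper35.CR.Alg

/-!
# Project CR (MP_434e52_an, S04498), block CR-5: two groups of functions with the same span

PROOF of `liso_of_span` from `liso_of_alg` with `G = K ⋊ Γ`, `H = K' ⋊ Γ`. For a function `k ∈ K` let `t k : K' →₀ ℂ` be its unique expansion (`lin'`, `hs`): `(k x : ℂ) = ∑ t k k' * k' x`. By uniqueness: `t 1 = single 1 1`, `t (k₁ k₂) = t k₁ * t k₂` (convolution), `t (k⁻¹) k' = conj (t k k'⁻¹)` (complex conjugation of the
functions), `t (γ • k) (γ • k') = t k k'`. `c (k, γ) = ∑_{k'} t k k' • single (k', γ)`, `d (k', γ) = ∑_k t' k' k • single (k, γ)` with `t'` the expansion of `k' ∈ K'` in `K` (`hs`, only existence is used). `htr` is `ht`.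
Multiplication in the semidirect product: `(k₁, γ₁) (k₂, γ₂) = (k₁ (γ₁ • k₂), γ₁ γ₂)`.
-/

set_option autoImplicit false

open scoped ComplexConjugate

namespace Pool.Agent.Helper35.CR

/-- The functions of a group `K`. -/
private def ev {X : Type} (K : Subgroup (X → Circle)) (k : K) (x : X) : ℂ := ((k.1 x : Circle) : ℂ)

private theorem ev_one {X : Type} (K : Subgroup (X → Circle)) : ev K 1 = 1 := by
  funext x
  simp [ev]

private theorem ev_mul {X : Type} (K : Subgroup (X → Circle)) (k k' : K) : ev K (k * k') = ev K k * ev K k' := by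
  funext x
  simp [ev]

private theorem ev_inv {X : Type} (K : Subgroup (X → Circle)) (k : K) (x : X) : ev K k⁻¹ x = conj (ev K k x) := by
  change (((k.1 x)⁻¹ : Circle) : ℂ) = conj ((k.1 x : Circle) : ℂ)
  rw [Circle.coe_inv_eq_conj]

private theorem ev_act {X Γ : Type} [Group Γ] (α : Γ →* Equiv.Perm X) (K : Subgroup (X → Circle))
    (hK : ∀ γ : Γ, ∀ k ∈ K, (fun x => k (α γ x)) ∈ K) (γ : Γ) (k : K) (x : X) : ev K (act α K hK γ k) x = ev K k (α γ⁻¹ x) := rfl

private theorem lc_apply {X : Type} {ι : Type} (e : ι → X → ℂ) (f : ι →₀ ℂ) (x : X) :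
    Finsupp.linearCombination ℂ e f x = f.sum fun i a => a * e i x := by
  rw [Finsupp.linearCombination_apply, Finsupp.sum, Finsupp.sum, Finset.sum_apply]
  rfl

theorem liso_of_span {X Γ : Type} [Group Γ] (α : Γ →* Equiv.Perm X) (K K' : Subgroup (X → Circle)) (hK : ∀ γ : Γ, ∀ k ∈ K, (fun x => k (α γ x)) ∈ K)
    (hK' : ∀ γ : Γ, ∀ k ∈ K', (fun x => k (α γ x)) ∈ K') (lin : LinearIndependent ℂ (fun (k : K) (x : X) => ((k.1 x : Circle) : ℂ)))
    (lin' : LinearIndependent ℂ (fun (k : K') (x : X) => ((k.1 x : Circle) : ℂ)))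
    (hs : Submodule.span ℂ (Set.range fun (k : K) (x : X) => ((k.1 x : Circle) : ℂ)) = Submodule.span ℂ (Set.range fun (k : K') (x : X) => ((k.1 x : Circle) : ℂ)))
    (ht : ∀ (k : K) (f : K' →₀ ℂ), k ≠ 1 → (∀ x : X, ((k.1 x : Circle) : ℂ) = f.sum fun k' a => a * ((k'.1 x : Circle) : ℂ)) → f 1 = 0) :
    LIso (K' ⋊[act α K' hK'] Γ) (K ⋊[act α K hK] Γ) := by
  classical
  have hinj : Function.Injective (Finsupp.linearCombination ℂ (ev K')) := lin'
  have hex : ∀ k : K, ∃ f : K' →₀ ℂ, Finsupp.linearCombination ℂ (ev K') f = ev K k := by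
    intro k
    have h1 : ev K k ∈ Submodule.span ℂ (Set.range (ev K')) := by
      change ev K k ∈ Submodule.span ℂ (Set.range fun (k : K') (x : X) => ((k.1 x : Circle) : ℂ))
      rw [← hs]
      exact Submodule.subset_span ⟨k, rfl⟩
    rw [Finsupp.mem_span_range_iff_exists_finsupp] at h1
    obtain ⟨f, hf⟩ := h1
    exact ⟨f, by rw [Finsupp.linearCombination_apply, hf]⟩
  have hex' : ∀ k : K', ∃ f : K →₀ ℂ, Finsupp.linearCombination ℂ (ev K) f = ev K' k := by
    intro k
    have h1 : ev K' k ∈ Submodule.span ℂ (Set.range (ev K)) := by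
      change ev K' k ∈ Submodule.span ℂ (Set.range fun (k : K) (x : X) => ((k.1 x : Circle) : ℂ))
      rw [hs]
      exact Submodule.subset_span ⟨k, rfl⟩
    rw [Finsupp.mem_span_range_iff_exists_finsupp] at h1
    obtain ⟨f, hf⟩ := h1
    exact ⟨f, by rw [Finsupp.linearCombination_apply, hf]⟩
  choose t htt using hex
  choose t' htt' using hex'
  have hx : ∀ (k : K) (x : X), ((t k).sum fun k' a => a * ev K' k' x) = ev K k x := by
    intro k x
    rw [← lc_apply, htt]
  -- the unit
  have t_one : t 1 = Finsupp.single 1 1 := by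
    apply hinj
    rw [htt, Finsupp.linearCombination_single, one_smul, ev_one, ev_one]
  -- the twisted product
  have t_mul : ∀ (k₁ k₂ : K) (γ : Γ), t (k₁ * act α K hK γ k₂) =
      (t k₁).sum fun h a => (t k₂).sum fun h' a' => Finsupp.single (h * act α K' hK' γ h') (a * a') := by
    intro k₁ k₂ γ
    apply hinj
    rw [htt]
    funext x
    have e1 : Finsupp.linearCombination ℂ (ev K') ((t k₁).sum fun h a => (t k₂).sum fun h' a' => Finsupp.single (h * act α K' hK' γ h') (a * a')) x =
        ∑ h ∈ (t k₁).support, ∑ h' ∈ (t k₂).support, (t k₁ h * t k₂ h') * ev K' (h * act α K' hK' γ h') x := by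
      simp only [Finsupp.sum]
      rw [map_sum, Finset.sum_apply]
      refine Finset.sum_congr rfl fun h _ => ?_
      rw [map_sum, Finset.sum_apply]
      refine Finset.sum_congr rfl fun h' _ => ?_
      rw [Finsupp.linearCombination_single]
      rfl
    rw [e1, ev_mul, Pi.mul_apply, ev_act, ← hx k₁ x, ← hx k₂ (α γ⁻¹ x)]
    simp only [Finsupp.sum]
    rw [Finset.sum_mul_sum]
    refine Finset.sum_congr rfl fun h _ => Finset.sum_congr rfl fun h' _ => ?_
    rw [ev_mul, Pi.mul_apply, ev_act]
    ring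
  -- conjugation
  have t_star : ∀ (k : K) (γ : Γ) (k' : K'), t (act α K hK γ k⁻¹) k' = conj (t k (act α K' hK' γ⁻¹ k'⁻¹)) := by
    intro k γ k'
    let φ : K' ≃ K' := (Equiv.inv K').trans (act α K' hK' γ).toEquiv
    have hφ : ∀ h : K', φ h = act α K' hK' γ h⁻¹ := fun _ => rfl
    have e1 : t (act α K hK γ k⁻¹) = Finsupp.equivMapDomain φ ((t k).mapRange (starRingEnd ℂ) (map_zero _)) := by
      apply hinj
      rw [htt]
      funext x
      rw [ev_act, ev_inv, lc_apply, Finsupp.equivMapDomain_eq_mapDomain,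
        Finsupp.sum_mapDomain_index (fun _ => zero_mul _) (fun _ _ _ => add_mul _ _ _),
        Finsupp.sum_mapRange_index (fun _ => zero_mul _), ← hx k (α γ⁻¹ x)]
      simp only [Finsupp.sum]
      rw [map_sum]
      refine Finset.sum_congr rfl fun h _ => ?_
      rw [hφ, ev_act, ev_inv, map_mul]
    rw [e1, Finsupp.equivMapDomain_apply, Finsupp.mapRange_apply]
    have e2 : φ.symm k' = act α K' hK' γ⁻¹ k'⁻¹ := by
      rw [Equiv.symm_apply_eq, hφ, ← map_inv, inv_inv, ← MulAut.mul_apply, ← map_mul, mul_inv_cancel, map_one]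
      rfl
    rw [e2]
  -- the maps
  let i (γ : Γ) (k : K) : K ⋊[act α K hK] Γ := ⟨k, γ⟩
  let j (γ : Γ) (k : K') : K' ⋊[act α K' hK'] Γ := ⟨k, γ⟩
  have ij : ∀ γ, Function.Injective (j γ) := fun γ k k' h => congrArg SemidirectProduct.left h
  have jmul : ∀ γ γ' k k', j γ k * j γ' k' = j (γ * γ') (k * act α K' hK' γ k') := fun _ _ _ _ => rfl
  let c (g : K ⋊[act α K hK] Γ) : (K' ⋊[act α K' hK'] Γ) →₀ ℂ := Finsupp.mapDomain (j g.right) (t g.left)
  let d (h : K' ⋊[act α K' hK'] Γ) : (K ⋊[act α K hK] Γ) →₀ ℂ := Finsupp.mapDomain (i h.right) (t' h.left)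
  refine (liso_of_alg c d ?_ ?_ ?_ ?_ ?_).2
  · change Finsupp.mapDomain (j 1) (t 1) = _
    rw [t_one, Finsupp.mapDomain_single]
    rfl
  · intro g g'
    change Finsupp.mapDomain (j (g.right * g'.right)) (t (g.left * act α K hK g.right g'.left)) = _
    rw [t_mul]
    have e1 : ∀ (h : K' ⋊[act α K' hK'] Γ) (a : ℂ), ((c g').sum fun h' a' => Finsupp.single (h * h') (a * a')) =
        (t g'.left).sum fun h' a' => Finsupp.single (h * j g'.right h') (a * a') := by
      intro h a
      exact Finsupp.sum_mapDomain_index (fun _ => by rw [mul_zero, Finsupp.single_zero])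
        (fun _ _ _ => by rw [mul_add, Finsupp.single_add])
    simp only [e1]
    have e2 : ((c g).sum fun h a => (t g'.left).sum fun h' a' => Finsupp.single (h * j g'.right h') (a * a')) =
        (t g.left).sum fun h a => (t g'.left).sum fun h' a' => Finsupp.single (j g.right h * j g'.right h') (a * a') := by
      refine Finsupp.sum_mapDomain_index (fun _ => ?_) (fun _ _ _ => ?_)
      · simp only [zero_mul, Finsupp.single_zero, Finsupp.sum, Finset.sum_const_zero]
      · simp only [add_mul, Finsupp.single_add, Finsupp.sum_add]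
    rw [e2]
    simp only [Finsupp.sum, jmul]
    rw [Finsupp.mapDomain_finsetSum]
    refine Finset.sum_congr rfl fun h _ => ?_
    rw [Finsupp.mapDomain_finsetSum]
    refine Finset.sum_congr rfl fun h' _ => ?_
    rw [Finsupp.mapDomain_single]
  · intro h
    have e1 : ((d h).sum fun g a => a • c g) = (t' h.left).sum fun k a => a • Finsupp.mapDomain (j h.right) (t k) :=
      Finsupp.sum_mapDomain_index (fun _ => zero_smul _ _) (fun _ _ _ => add_smul _ _ _)
    have e2 : ((t' h.left).sum fun k a => a • t k) = Finsupp.single h.left 1 := by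
      apply hinj
      have r : Finsupp.linearCombination ℂ (ev K) (t' h.left) = (t' h.left).sum fun k a => a • ev K k :=
        Finsupp.linearCombination_apply _ _
      rw [Finsupp.linearCombination_single, one_smul, ← htt', r]
      simp only [Finsupp.sum]
      rw [map_sum]
      refine Finset.sum_congr rfl fun k _ => ?_
      rw [map_smul, htt]
    rw [e1]
    have e3 : ((t' h.left).sum fun k a => a • Finsupp.mapDomain (j h.right) (t k)) =
        Finsupp.mapDomain (j h.right) ((t' h.left).sum fun k a => a • t k) := by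
      simp only [Finsupp.sum]
      rw [Finsupp.mapDomain_finsetSum]
      refine Finset.sum_congr rfl fun k _ => ?_
      rw [Finsupp.mapDomain_smul]
    rw [e3, e2, Finsupp.mapDomain_single]
  · intro g hg
    change Finsupp.mapDomain (j g.right) (t g.left) 1 = 0
    by_cases hr : g.right = 1
    · have hl : g.left ≠ 1 := fun hl => hg (SemidirectProduct.ext hl hr)
      have e1 : (1 : K' ⋊[act α K' hK'] Γ) = j g.right 1 := by
        rw [hr]
        rfl
      rw [e1, Finsupp.mapDomain_apply (ij _)]
      exact ht g.left (t g.left) hl fun x => (hx g.left x).symm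
    · refine Finsupp.mapDomain_of_notMem_range _ _ ?_
      rintro ⟨k, hk⟩
      exact hr (congrArg SemidirectProduct.right hk)
  · intro g h
    change Finsupp.mapDomain (j g⁻¹.right) (t g⁻¹.left) h = conj (Finsupp.mapDomain (j g.right) (t g.left) h⁻¹)
    by_cases hr : h.right = g.right⁻¹
    · have e1 : h = j g⁻¹.right h.left := SemidirectProduct.ext rfl hr
      have e2 : h⁻¹ = j g.right (act α K' hK' g.right h.left⁻¹) := by
        refine SemidirectProduct.ext ?_ ?_
        · rw [SemidirectProduct.inv_left, hr, inv_inv]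
        · rw [SemidirectProduct.inv_right, hr, inv_inv]
      conv_lhs => rw [e1]
      rw [e2, Finsupp.mapDomain_apply (ij _), Finsupp.mapDomain_apply (ij _), SemidirectProduct.inv_left, t_star, inv_inv]
    · rw [Finsupp.mapDomain_of_notMem_range, Finsupp.mapDomain_of_notMem_range, map_zero]
      · rintro ⟨k, hk⟩
        have h1 := congrArg SemidirectProduct.right hk
        rw [SemidirectProduct.inv_right] at h1
        exact hr (by rw [← inv_inv h.right, ← h1])
      · rintro ⟨k, hk⟩
        exact hr (congrArg SemidirectProduct.right hk).symm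

end Pool.Agent.Helper35.CR
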