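import Pool.Agent.Helper35.CR.Wit

/-!
# Project CR (MP_434e52_an, S04498), block CR-7: squares and countability

`sq_KS'`: `χ (a, b) ^ 2 = χ (2 (a, b)) = 1` in characteristic two; `KS'` is commutative, so products of such elements have square `1` (`Subgroup.iSup_induction` or `KS' ≤ {k | k ^ 2 = 1}`).
`inf_KS`: take a character `χ` of `W2 F` with `χ (1, 0) ^ 2 ≠ 1`, i.e. `χ (2 (1, 0)) = χ (0, 1) ≠ 1` (exists: `AddChar.exists_apply_ne_zero` with `AddChar.circleEquivComplex`). For `v ∈ S` let `k v = χ (x v, u v) ∈ Cv v`; `(k v x)² = χ (0, (x v)²)`. If `(k v)² = (k v')²`, `v ≠ v'`: take a linear form `x` with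
`x (v - v') ≠ 0`; with multiples `c x`: `χ (0, c² (x v)²) = χ (0, c² (x v')²)` for all `c ∈ F`, so `χ (0, c² d²) = 1` for all `c`, `d = x v - x v' ≠ 0`, but every element of `F` is a square, so `χ (0, 1) = 1`: contradiction. So `v ↦ (k v)²` is injective on `S`.
Countability: `F` finite, so every `Cv' v`, `Cv v` is finite (finitely many characters), and a group generated by a countable set is countable (`Subgroup.closure` of a countable set; e.g. it is the range of a homomorphism from a free group on a countable type).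
-/

set_option autoImplicit false

namespace Pool.Agent.Helper35.CR

variable {F V : Type} [Field F] [Fintype F] [CharP F 2] [AddCommGroup V] [Module F V]

omit [Fintype F] in
theorem sq_KS' (S : Set V) (k : KS' F S) : k ^ 2 = 1 := by
  have h1 : KS' F S ≤ (powMonoidHom 2 : (Xs F V → Circle) →* (Xs F V → Circle)).ker := by
    refine iSup₂_le fun v hv f hf => ?_
    obtain ⟨χ, hχ⟩ := hf
    rw [MonoidHom.mem_ker]
    funext x
    have h2 : ((x.1 v, x.2 v) : F × F) + (x.1 v, x.2 v) = 0 := by
      ext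
      · exact CharTwo.add_self_eq_zero _
      · exact CharTwo.add_self_eq_zero _
    change f x ^ 2 = 1
    rw [hχ, pow_two, ← AddChar.map_add_eq_mul, h2, AddChar.map_zero_eq_one]
  have h3 := h1 k.2
  rw [MonoidHom.mem_ker] at h3
  exact Subtype.ext h3

omit [Fintype F] in
private theorem b7_dbl {a b : F} : ((⟨a, b⟩ : W2 F) + ⟨a, b⟩) = ⟨0, a * a⟩ := by
  ext
  · simp [CharTwo.add_self_eq_zero]
  · simp [CharTwo.add_self_eq_zero]

private theorem b7_char : ∃ χ : AddChar (W2 F) Circle, χ ⟨0, 1⟩ ≠ 1 := by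
  have h1 : (⟨0, 1⟩ : W2 F) ≠ 0 := by
    intro h
    have h2 := congrArg W2.b h
    simp at h2
  obtain ⟨ψ, hψ⟩ := AddChar.exists_apply_ne_zero.2 h1
  refine ⟨AddChar.circleEquivComplex.symm ψ, fun h => hψ ?_⟩
  have h3 : ψ = AddChar.circleEquivComplex (AddChar.circleEquivComplex.symm ψ) := (AddEquiv.apply_symm_apply _ _).symm
  have h4 : (AddChar.circleEquivComplex (AddChar.circleEquivComplex.symm ψ)) ⟨0, 1⟩ = ((AddChar.circleEquivComplex.symm ψ) ⟨0, 1⟩ : ℂ) := rfl
  rw [h3, h4, h, Circle.coe_one]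

/-- The function of a character at a point. -/
private noncomputable def b7_k (χ : AddChar (W2 F) Circle) (S : Set V) (v : S) : KS F S :=
  ⟨fun x => χ ⟨x.1 v, x.2 v⟩, (le_iSup₂_of_le (f := fun v (_ : v ∈ S) => Cv F v) v.1 v.2 le_rfl) ⟨χ, fun _ => rfl⟩⟩

theorem inf_KS {S : Set V} (hS : S.Infinite) : (Set.range fun k : KS F S => k ^ 2).Infinite := by
  obtain ⟨χ, hχ⟩ := b7_char (F := F)
  have hi : Infinite S := hS.to_subtype
  refine Set.infinite_of_injective_forall_mem (f := fun v : S => (b7_k χ S v) ^ 2) ?_ (fun v => ⟨b7_k χ S v, rfl⟩)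
  intro v v' h
  by_contra hne
  have hne' : (v : V) - v' ≠ 0 := fun h0 => hne (Subtype.ext (sub_eq_zero.1 h0))
  have h1 : ¬ ∀ φ : Module.Dual F V, φ ((v : V) - v') = 0 := fun h2 => hne' ((Module.forall_dual_apply_eq_zero_iff F _).1 h2)
  obtain ⟨φ, hφ⟩ := not_forall.1 h1
  rw [map_sub] at hφ
  have key : ∀ (w : S) (c : F), ((b7_k χ S w) ^ 2).1 ((c • φ, 0) : Xs F V) = χ ⟨0, (c * φ w) * (c * φ w)⟩ := by
    intro w c
    change (χ ⟨c • φ w, (0 : QuadraticForm F V) w⟩) ^ 2 = _
    rw [pow_two, ← AddChar.map_add_eq_mul, b7_dbl]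
    rfl
  have h3 : ∀ c : F, χ ⟨0, (c * φ v) * (c * φ v)⟩ = χ ⟨0, (c * φ v') * (c * φ v')⟩ := fun c => by
    rw [← key, ← key]
    exact congrFun (congrArg Subtype.val h) _
  have h4 := h3 (φ v - φ v')⁻¹
  set p := (φ v - φ v')⁻¹ * φ v with hp
  set q := (φ v - φ v')⁻¹ * φ v' with hq
  have hpq : p - q = 1 := by
    rw [hp, hq, ← mul_sub, inv_mul_cancel₀ hφ]
  have hpq' : p * p + q * q = 1 := by
    have h5 : p + q = 1 := by rw [← hpq, CharTwo.sub_eq_add]
    have h6 : (p + q) * (p + q) = p * p + q * q := by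
      have h7 : p * q + q * p = 0 := by rw [mul_comm q p]; exact CharTwo.add_self_eq_zero _
      calc (p + q) * (p + q) = p * p + q * q + (p * q + q * p) := by ring
        _ = _ := by rw [h7, add_zero]
    rw [← h6, h5, one_mul]
  apply hχ
  have h8 : (⟨0, 1⟩ : W2 F) = ⟨0, p * p⟩ + ⟨0, q * q⟩ := by
    ext
    · simp
    · simp [hpq']
  rw [h8, AddChar.map_add_eq_mul, ← h4, ← AddChar.map_add_eq_mul, b7_dbl, mul_zero]
  exact AddChar.map_zero_eq_one χ

private theorem b7_closure {G : Type} [Group G] {s : Set G} (hs : s.Countable) : ((Subgroup.closure s : Subgroup G) : Set G).Countable := by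
  have h1 : Countable s := hs.to_subtype
  have h2 : Subgroup.closure s = (FreeGroup.lift (Subtype.val : s → G)).range := by
    rw [FreeGroup.range_lift_eq_closure, Subtype.range_coe]
  have h3 : Countable (FreeGroup s) := by
    unfold FreeGroup
    infer_instance
  rw [h2]
  exact Set.countable_range _

omit [CharP F 2] in
theorem countable_KS' {S : Set V} (hS : S.Countable) : Countable (KS' F S) := by
  have h1 : (⋃ v ∈ S, ((Cv' F v : Subgroup (Xs F V → Circle)) : Set (Xs F V → Circle))).Countable := by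
    refine hS.biUnion fun v _ => ?_
    have h2 : ((Cv' F v : Subgroup (Xs F V → Circle)) : Set (Xs F V → Circle)) ⊆
        Set.range fun χ : AddChar (F × F) Circle => fun x : Xs F V => χ (x.1 v, x.2 v) := by
      rintro f ⟨χ, hχ⟩
      exact ⟨χ, funext fun x => (hχ x).symm⟩
    have h3 : Finite (AddChar (F × F) Circle) := Finite.of_equiv _ AddChar.circleEquivComplex.symm.toEquiv
    exact (Set.countable_range _).mono h2
  have h4 : ((KS' F S : Subgroup (Xs F V → Circle)) : Set (Xs F V → Circle)).Countable := by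
    refine (b7_closure h1).mono ?_
    have h5 : KS' F S ≤ Subgroup.closure (⋃ v ∈ S, ((Cv' F v : Subgroup (Xs F V → Circle)) : Set (Xs F V → Circle))) := by
      refine iSup₂_le fun v hv f hf => Subgroup.subset_closure ?_
      exact Set.mem_biUnion hv hf
    exact h5
  exact h4.to_subtype

theorem countable_KS {S : Set V} (hS : S.Countable) : Countable (KS F S) := by
  have h1 : (⋃ v ∈ S, ((Cv F v : Subgroup (Xs F V → Circle)) : Set (Xs F V → Circle))).Countable := by
    refine hS.biUnion fun v _ => ?_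
    have h2 : ((Cv F v : Subgroup (Xs F V → Circle)) : Set (Xs F V → Circle)) ⊆
        Set.range fun χ : AddChar (W2 F) Circle => fun x : Xs F V => χ ⟨x.1 v, x.2 v⟩ := by
      rintro f ⟨χ, hχ⟩
      exact ⟨χ, funext fun x => (hχ x).symm⟩
    have h3 : Finite (AddChar (W2 F) Circle) := Finite.of_equiv _ AddChar.circleEquivComplex.symm.toEquiv
    exact (Set.countable_range _).mono h2
  have h4 : ((KS F S : Subgroup (Xs F V → Circle)) : Set (Xs F V → Circle)).Countable := by
    refine (b7_closure h1).mono ?_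
    have h5 : KS F S ≤ Subgroup.closure (⋃ v ∈ S, ((Cv F v : Subgroup (Xs F V → Circle)) : Set (Xs F V → Circle))) := by
      refine iSup₂_le fun v hv f hf => Subgroup.subset_closure ?_
      exact Set.mem_biUnion hv hf
    exact h5
  exact h4.to_subtype

end Pool.Agent.Helper35.CR
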