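import Pool.Agent.Helper35.CR.WitA
import Pool.Agent.Helper35.CR.WitB
import Pool.Agent.Helper35.CR.GamM
import Pool.Agent.Helper35.CR.NVI
import Pool.Agent.Helper35.CR.GT

/-!
# Project CR (MP_434e52_an, S04498): assembly

A group `G` with property (T) and a group `H` with isomorphic von Neumann algebras which are not virtually isomorphic.
-/

set_option autoImplicit false

open Polynomial Matrix

namespace Pool.Agent.Helper35.CR

section

variable (F : Type) [Field F] [CharP F 2]

/-- The second group. -/
abbrev HH : Type := KS F (S0 F) ⋊[act (aX (rG F)) (KS F (S0 F)) (inv_KS (rG F) (hS0 F))] Gam F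

theorem countable_S0 [Finite F] : (S0 F).Countable := by
  have h := countable_Gam F
  have h1 : S0 F = Set.range fun γ : Gam F => rG F γ (Pi.single 2 1) := by
    ext v
    exact ⟨fun ⟨γ, hγ⟩ => ⟨γ, hγ.symm⟩, fun ⟨γ, hγ⟩ => ⟨γ, hγ.symm⟩⟩
  rw [h1]
  exact Set.countable_range _

omit [CharP F 2] in
theorem countable_GG [Finite F] [CharP F 2] : Countable (GG F) := by
  have h := countable_Gam F
  have := Fintype.ofFinite F
  have h1 := countable_KS' (F := F) (countable_S0 F)
  exact (SemidirectProduct.equivProd).injective.countable

theorem countable_HH [Finite F] : Countable (HH F) := by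
  have h := countable_Gam F
  have := Fintype.ofFinite F
  have h1 := countable_KS (F := F) (countable_S0 F)
  exact (SemidirectProduct.equivProd).injective.countable

theorem liso [Finite F] : LIso (GG F) (HH F) := by
  have := Fintype.ofFinite F
  exact liso_KS (rG F) (hS0 F)

theorem nvi [Finite F] : ¬ VI (GG F) (HH F) := by
  have := Fintype.ofFinite F
  exact not_vi _ _ (gam_M F) (sq_KS' (S0 F)) (inf_KS (inf_S0 F))

end

/-- The field with 32 elements. -/
abbrev F32 : Type := GaloisField 2 5

theorem card_F32 : Nat.card F32 = 32 := by
  rw [GaloisField.card 2 5 (by norm_num)]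
  norm_num

end Pool.Agent.Helper35.CR
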