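import Pool.Agent.Helper35.CR.Sp

/-!
# Project CR (MP_434e52_an, S04498): linear and quadratic forms, the two groups of functions (definitions)

`W2 F`: Witt vectors of length two in characteristic two. `Xs F V`: pairs (linear form, quadratic form) on `V`. `Cv' v`: the functions `χ (x v, u v)`, `χ` a character of `F × F`; `Cv v`: the same with a character of `W2 F`.
`KS' S`, `KS S`: the groups of functions generated by the `Cv' v`, `Cv v`, `v ∈ S`. `aX ρ`: the action of `Γ` on `Xs F V`.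
-/

set_option autoImplicit false
set_option linter.unusedSectionVars false
set_option linter.unusedSimpArgs false

namespace Pool.Agent.Helper35.CR

/-- Witt vectors of length two in characteristic two. -/
@[ext] structure W2 (F : Type) where
  /-- first component -/
  a : F
  /-- second component -/
  b : F

namespace W2

variable {F : Type} [Field F] [CharP F 2]

instance : Zero (W2 F) := ⟨⟨0, 0⟩⟩
instance : Add (W2 F) := ⟨fun x y => ⟨x.a + y.a, x.b + y.b + x.a * y.a⟩⟩
instance : Neg (W2 F) := ⟨fun x => ⟨x.a, x.b + x.a * x.a⟩⟩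

@[simp] theorem zero_a : (0 : W2 F).a = 0 := rfl
@[simp] theorem zero_b : (0 : W2 F).b = 0 := rfl
@[simp] theorem add_a (x y : W2 F) : (x + y).a = x.a + y.a := rfl
@[simp] theorem add_b (x y : W2 F) : (x + y).b = x.b + y.b + x.a * y.a := rfl
@[simp] theorem neg_a (x : W2 F) : (-x).a = x.a := rfl
@[simp] theorem neg_b (x : W2 F) : (-x).b = x.b + x.a * x.a := rfl

instance : AddCommGroup (W2 F) where
  add_assoc x y z := by ext <;> simp <;> ring
  zero_add x := by ext <;> simp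
  add_zero x := by ext <;> simp
  add_comm x y := by ext <;> simp <;> ring
  neg_add_cancel x := by
    ext
    · simp [CharTwo.add_self_eq_zero]
    · have h := CharTwo.add_self_eq_zero (x.b + x.a * x.a)
      simp only [add_b, neg_b, neg_a, zero_b]
      rw [← h]
      ring
  nsmul := nsmulRec
  zsmul := zsmulRec

/-- `W2 F` is in bijection with `F × F`. -/
def equiv : W2 F ≃ F × F where
  toFun x := (x.a, x.b)
  invFun p := ⟨p.1, p.2⟩
  left_inv _ := rfl
  right_inv _ := rfl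

instance [Finite F] : Finite (W2 F) := Finite.of_equiv _ (equiv (F := F)).symm

end W2

section Space

variable (F V : Type) [Field F] [AddCommGroup V] [Module F V]

/-- Pairs of a linear form and a quadratic form. -/
abbrev Xs := Module.Dual F V × QuadraticForm F V

end Space

section Act

variable {F V Γ : Type} [Field F] [AddCommGroup V] [Module F V] [Group Γ]

/-- The action on pairs of forms. -/
def aX (ρ : Γ →* (V ≃ₗ[F] V)) : Γ →* Equiv.Perm (Xs F V) where
  toFun γ :=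
    { toFun := fun x => (x.1.comp (ρ γ⁻¹).toLinearMap, x.2.comp (ρ γ⁻¹).toLinearMap)
      invFun := fun x => (x.1.comp (ρ γ).toLinearMap, x.2.comp (ρ γ).toLinearMap)
      left_inv := fun x => by
        ext v <;> simp [← LinearEquiv.mul_apply, ← map_mul]
      right_inv := fun x => by
        ext v <;> simp [← LinearEquiv.mul_apply, ← map_mul] }
  map_one' := by
    ext x v <;> simp
  map_mul' γ γ' := by
    ext x v <;> simp [_root_.mul_inv_rev, Equiv.Perm.mul_apply]

theorem aX_fst (ρ : Γ →* (V ≃ₗ[F] V)) (γ : Γ) (x : Xs F V) (v : V) : (aX ρ γ x).1 v = x.1 (ρ γ⁻¹ v) := rfl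

theorem aX_snd (ρ : Γ →* (V ≃ₗ[F] V)) (γ : Γ) (x : Xs F V) (v : V) : (aX ρ γ x).2 v = x.2 (ρ γ⁻¹ v) := rfl

variable (F)

/-- The functions `χ (x v, u v)`, `χ` a character of `F × F`. -/
def Cv' (v : V) : Subgroup (Xs F V → Circle) where
  carrier := {f | ∃ χ : AddChar (F × F) Circle, ∀ x, f x = χ (x.1 v, x.2 v)}
  mul_mem' := by
    rintro f g ⟨χ, hχ⟩ ⟨χ', hχ'⟩
    exact ⟨χ * χ', fun x => by simp [hχ, hχ']⟩
  one_mem' := ⟨1, fun x => by simp⟩
  inv_mem' := by
    rintro f ⟨χ, hχ⟩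
    exact ⟨χ⁻¹, fun x => by rw [Pi.inv_apply, hχ, AddChar.inv_apply, AddChar.map_neg_eq_inv]⟩

/-- The functions `χ (x v, u v)`, `χ` a character of `W2 F`. -/
def Cv [CharP F 2] (v : V) : Subgroup (Xs F V → Circle) where
  carrier := {f | ∃ χ : AddChar (W2 F) Circle, ∀ x, f x = χ ⟨x.1 v, x.2 v⟩}
  mul_mem' := by
    rintro f g ⟨χ, hχ⟩ ⟨χ', hχ'⟩
    exact ⟨χ * χ', fun x => by simp [hχ, hχ']⟩
  one_mem' := ⟨1, fun x => by simp⟩
  inv_mem' := by
    rintro f ⟨χ, hχ⟩
    exact ⟨χ⁻¹, fun x => by rw [Pi.inv_apply, hχ, AddChar.inv_apply, AddChar.map_neg_eq_inv]⟩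

/-- The group generated by the `Cv' v`, `v ∈ S` (exponent two). -/
noncomputable def KS' (S : Set V) : Subgroup (Xs F V → Circle) := ⨆ v ∈ S, Cv' F v

/-- The group generated by the `Cv v`, `v ∈ S` (exponent four). -/
noncomputable def KS [CharP F 2] (S : Set V) : Subgroup (Xs F V → Circle) := ⨆ v ∈ S, Cv F v

variable {F}

/-- Precomposition. -/
def preG {X : Type} (f : X → X) : (X → Circle) →* (X → Circle) where
  toFun k := fun x => k (f x)
  map_one' := rfl
  map_mul' _ _ := rfl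

theorem inv_KS' (ρ : Γ →* (V ≃ₗ[F] V)) {S : Set V} (hS : ∀ γ : Γ, ∀ v ∈ S, ρ γ v ∈ S) (γ : Γ) (k : Xs F V → Circle) (hk : k ∈ KS' F S) :
    (fun x => k (aX ρ γ x)) ∈ KS' F S := by
  have h1 : KS' F S ≤ (KS' F S).comap (preG (aX ρ γ)) := by
    refine iSup₂_le fun v hv k hk => ?_
    obtain ⟨χ, hχ⟩ := hk
    refine (le_iSup₂_of_le (f := fun v (_ : v ∈ S) => Cv' F v) (ρ γ⁻¹ v) (hS γ⁻¹ v hv) le_rfl) ?_
    exact ⟨χ, fun x => hχ _⟩
  exact h1 hk

theorem inv_KS [CharP F 2] (ρ : Γ →* (V ≃ₗ[F] V)) {S : Set V} (hS : ∀ γ : Γ, ∀ v ∈ S, ρ γ v ∈ S) (γ : Γ) (k : Xs F V → Circle) (hk : k ∈ KS F S) :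
    (fun x => k (aX ρ γ x)) ∈ KS F S := by
  have h1 : KS F S ≤ (KS F S).comap (preG (aX ρ γ)) := by
    refine iSup₂_le fun v hv k hk => ?_
    obtain ⟨χ, hχ⟩ := hk
    refine (le_iSup₂_of_le (f := fun v (_ : v ∈ S) => Cv F v) (ρ γ⁻¹ v) (hS γ⁻¹ v hv) le_rfl) ?_
    exact ⟨χ, fun x => hχ _⟩
  exact h1 hk

end Act

end Pool.Agent.Helper35.CR
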