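import Pool.Agent.Helper35.CR.Wit

/-!
# Project CR (MP_434e52_an, S04498), block CR-6: the two semidirect products have isomorphic von Neumann algebras

PROOF of `liso_KS` from `liso_of_span` with `K = KS F S`, `K' = KS' F S`, `α = aX ρ`.
`lin'`: the elements of `KS'` are homomorphisms from the additive group `Xs F V` to the circle (true for `Cv' v`, closed under products), and distinct homomorphisms are linearly independent (`linearIndependent_monoidHom` on `Multiplicative (Xs F V)`, composed with the injective map `KS' → Hom`).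
`lin`: the same with the group structure `E` on the set `Xs F V`: `(x, u) + (y, v) = (x + y, u + v + x y)`, `x y = QuadraticMap.linMulLin x y` (a type synonym of `Xs F V`, a commutative group as `W2`; inverse `(x, u + x x)`; `v ↦ ⟨x v, u v⟩` is a homomorphism `E → W2 F`).
`hs`: both spans are subalgebras of `Xs F V → ℂ` (closed under products). For every `v ∈ S`, `span Cv v = span Cv' v = {g (x v, u v) | g : F × F → ℂ}` (for `g` on a finite commutative group: `AddChar.complexBasis`, `AddChar.circleEquivComplex`); an element of `KS` is a finite product of elements of `Cv v`, `v ∈ S`,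
so it is in the subalgebra spanned by `KS'` (closure induction / `Subgroup.iSup_induction`), and conversely.
`ht`: let `k ∈ KS`, `k ≠ 1`, `k = ∑ f k' k'`. For `e = (y, w) ∈ E` and `k' ∈ KS'`: `k' (e + x) = k' e * k' x * m x` with `m x = k' (0, y x.1)`, and `m ∈ KS'` (closure induction: for `k' = χ (x v, u v)`, `m x = χ (0, y v * x.1 v)`, a character of `F × F` at `(x.1 v, x.2 v)`).
So `k (e + ·) = k e • k` has the expansions `k e * f` and `∑ f k' (k' e) [k' m]`; compare the coefficients of `1`: `k' m = 1` gives (at `(0, u)`: `m (0, u) = k' (0, 0) = 1`) `k' (0, u) = 1` for all `u`, so `m = 1` and `k' = 1`. So `k e * f 1 = f 1` for all `e`, and `k e ≠ 1` for some `e`.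
-/

set_option autoImplicit false

set_option linter.unusedSectionVars false

namespace Pool.Agent.Helper35.CR

variable {F V Γ : Type} [Field F] [Fintype F] [CharP F 2] [AddCommGroup V] [Module F V] [Group Γ]

/-- the complex function of a function with values in the circle -/
private def cc56 {X : Type} (k : X → Circle) : X → ℂ := fun x => ((k x : Circle) : ℂ)

private theorem cc_mul56 {X : Type} (k l : X → Circle) : cc56 (k * l) = cc56 k * cc56 l := by
  funext x
  simp [cc56]

/-- the span of the functions of a group -/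
private def A56 {X : Type} (K : Subgroup (X → Circle)) : Submodule ℂ (X → ℂ) :=
  Submodule.span ℂ (Set.range fun (k : K) (x : X) => ((k.1 x : Circle) : ℂ))

private theorem A_mem56 {X : Type} {K : Subgroup (X → Circle)} {k : X → Circle} (hk : k ∈ K) : cc56 k ∈ A56 K :=
  Submodule.subset_span ⟨⟨k, hk⟩, rfl⟩

private theorem A_mul56 {X : Type} {K : Subgroup (X → Circle)} {f g : X → ℂ} (hf : f ∈ A56 K) (hg : g ∈ A56 K) :
    f * g ∈ A56 K := by
  have h1 : f * g ∈ A56 K * A56 K := Submodule.mul_mem_mul hf hg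
  unfold A56 at h1 ⊢
  rw [Submodule.span_mul_span] at h1
  refine Submodule.span_mono ?_ h1
  rintro _ ⟨_, ⟨k, rfl⟩, _, ⟨l, rfl⟩, rfl⟩
  refine ⟨k * l, ?_⟩
  funext x
  simp

private theorem A_le56 {X : Type} {K L : Subgroup (X → Circle)} (h : ∀ k ∈ K, cc56 k ∈ A56 L) : A56 K ≤ A56 L := by
  refine Submodule.span_le.2 ?_
  rintro _ ⟨k, rfl⟩
  exact h k.1 k.2

/-- the functions in the span together with their inverses -/
private def Q56 {X : Type} (L : Subgroup (X → Circle)) : Subgroup (X → Circle) where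
  carrier := {k | cc56 k ∈ A56 L ∧ cc56 k⁻¹ ∈ A56 L}
  mul_mem' := by
    rintro k l ⟨h1, h2⟩ ⟨h3, h4⟩
    refine ⟨?_, ?_⟩
    · rw [cc_mul56]
      exact A_mul56 h1 h3
    · rw [mul_inv, cc_mul56]
      exact A_mul56 h2 h4
  one_mem' := by
    have h1 : cc56 (1 : X → Circle) ∈ A56 L := A_mem56 L.one_mem
    exact ⟨h1, by rw [inv_one]; exact h1⟩
  inv_mem' := by
    rintro k ⟨h1, h2⟩
    exact ⟨h2, by rw [inv_inv]; exact h1⟩

private theorem fun_mem56 {α X : Type} [AddCommGroup α] [Finite α] (L : Subgroup (X → Circle)) (p : X → α)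
    (h : ∀ χ : AddChar α Circle, (fun x => χ (p x)) ∈ L) (g : α → ℂ) : (fun x => g (p x)) ∈ A56 L := by
  have h1 : g ∈ Submodule.span ℂ (Set.range (AddChar.complexBasis α)) := by
    rw [(AddChar.complexBasis α).span_eq]
    exact Submodule.mem_top
  have h2 : Submodule.span ℂ (Set.range (AddChar.complexBasis α)) ≤ (A56 L).comap (LinearMap.funLeft ℂ ℂ p) := by
    rw [Submodule.span_le]
    rintro _ ⟨ψ, rfl⟩
    obtain ⟨χ, rfl⟩ := AddChar.circleEquivComplex.surjective ψ
    rw [AddChar.complexBasis_apply]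
    exact A_mem56 (h χ)
  exact h2 h1

private theorem le_Q56 {S : Set V} {v : V} (hv : v ∈ S) : Cv F v ≤ Q56 (KS' F S) := by
  have h0 : ∀ k ∈ Cv F v, cc56 k ∈ A56 (KS' F S) := by
    rintro k ⟨χ, hχ⟩
    have h1 := fun_mem56 (KS' F S) (fun x : Xs F V => (x.1 v, x.2 v))
      (fun χ' => (le_iSup₂_of_le (f := fun v (_ : v ∈ S) => Cv' F v) v hv le_rfl) ⟨χ', fun x => rfl⟩)
      (fun p => ((χ ⟨p.1, p.2⟩ : Circle) : ℂ))
    have h2 : cc56 k = fun x : Xs F V => ((χ ⟨x.1 v, x.2 v⟩ : Circle) : ℂ) := by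
      funext x
      rw [cc56, hχ]
    rw [h2]
    exact h1
  exact fun k hk => ⟨h0 k hk, h0 k⁻¹ (inv_mem hk)⟩

private theorem le_Q56' {S : Set V} {v : V} (hv : v ∈ S) : Cv' F v ≤ Q56 (KS F S) := by
  have h0 : ∀ k ∈ Cv' F v, cc56 k ∈ A56 (KS F S) := by
    rintro k ⟨χ, hχ⟩
    have h1 := fun_mem56 (KS F S) (fun x : Xs F V => (⟨x.1 v, x.2 v⟩ : W2 F))
      (fun χ' => (le_iSup₂_of_le (f := fun v (_ : v ∈ S) => Cv F v) v hv le_rfl) ⟨χ', fun x => rfl⟩)
      (fun p => ((χ (p.a, p.b) : Circle) : ℂ))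
    have h2 : cc56 k = fun x : Xs F V => ((χ (x.1 v, x.2 v) : Circle) : ℂ) := by
      funext x
      rw [cc56, hχ]
    rw [h2]
    exact h1
  exact fun k hk => ⟨h0 k hk, h0 k⁻¹ (inv_mem hk)⟩

private theorem hs56 (S : Set V) : A56 (KS F S) = A56 (KS' F S) := by
  apply le_antisymm
  · have h1 : KS F S ≤ Q56 (KS' F S) := iSup₂_le fun v hv => le_Q56 hv
    exact A_le56 fun k hk => (h1 hk).1
  · have h1 : KS' F S ≤ Q56 (KS F S) := iSup₂_le fun v hv => le_Q56' hv
    exact A_le56 fun k hk => (h1 hk).1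

/-- the homomorphisms to the circle for an operation -/
private def Hm56 {X : Type} (z : X) (op : X → X → X) : Subgroup (X → Circle) where
  carrier := {k | k z = 1 ∧ ∀ x y, k (op x y) = k x * k y}
  mul_mem' := by
    rintro k l ⟨h1, h2⟩ ⟨h3, h4⟩
    refine ⟨?_, fun x y => ?_⟩
    · rw [Pi.mul_apply, h1, h3, one_mul]
    · rw [Pi.mul_apply, Pi.mul_apply, Pi.mul_apply, h2, h4, mul_mul_mul_comm]
  one_mem' := ⟨rfl, fun x y => by simp⟩
  inv_mem' := by
    rintro k ⟨h1, h2⟩
    refine ⟨?_, fun x y => ?_⟩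
    · rw [Pi.inv_apply, h1, inv_one]
    · rw [Pi.inv_apply, Pi.inv_apply, Pi.inv_apply, h2, mul_inv]

private theorem lin56 {X : Type} (K : Subgroup (X → Circle)) (z : X) (op : X → X → X) (h1 : ∀ x, op z x = x)
    (h2 : ∀ x, op x z = x) (hK : K ≤ Hm56 z op) :
    LinearIndependent ℂ (fun (k : K) (x : X) => ((k.1 x : Circle) : ℂ)) := by
  let _ : MulOneClass X := { one := z, mul := op, one_mul := h1, mul_one := h2 }
  let φ : K → (X →* ℂ) := fun k =>
    { toFun := fun x => ((k.1 x : Circle) : ℂ)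
      map_one' := by
        have h3 : k.1 z = 1 := (hK k.2).1
        change ((k.1 z : Circle) : ℂ) = 1
        rw [h3, Circle.coe_one]
      map_mul' := fun x y => by
        have h3 : k.1 (op x y) = k.1 x * k.1 y := (hK k.2).2 x y
        change ((k.1 (op x y) : Circle) : ℂ) = _
        rw [h3, Circle.coe_mul] }
  have hφ : Function.Injective φ := by
    intro k l hkl
    apply Subtype.ext
    funext x
    have h3 : ((k.1 x : Circle) : ℂ) = ((l.1 x : Circle) : ℂ) := DFunLike.congr_fun hkl x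
    exact Circle.ext h3
  exact (linearIndependent_monoidHom X ℂ).comp φ hφ

/-- the addition in `E` -/
private def opE56 (x y : Xs F V) : Xs F V := (x.1 + y.1, x.2 + y.2 + QuadraticMap.linMulLin x.1 y.1)

private theorem KS'_le56 (S : Set V) : KS' F S ≤ Hm56 (0 : Xs F V) (fun x y => x + y) := by
  refine iSup₂_le fun v hv k hk => ?_
  obtain ⟨χ, hχ⟩ := hk
  refine ⟨?_, fun x y => ?_⟩
  · rw [hχ]
    have h1 : (((0 : Xs F V).1 v, (0 : Xs F V).2 v) : F × F) = 0 := by
      ext <;> simp
    rw [h1, AddChar.map_zero_eq_one]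
  · rw [hχ, hχ, hχ, ← AddChar.map_add_eq_mul]
    congr 1

private theorem KS_le56 (S : Set V) : KS F S ≤ Hm56 (0 : Xs F V) opE56 := by
  refine iSup₂_le fun v hv k hk => ?_
  obtain ⟨χ, hχ⟩ := hk
  refine ⟨?_, fun x y => ?_⟩
  · rw [hχ]
    have h1 : (⟨(0 : Xs F V).1 v, (0 : Xs F V).2 v⟩ : W2 F) = 0 := by
      ext <;> simp
    rw [h1, AddChar.map_zero_eq_one]
  · rw [hχ, hχ, hχ, ← AddChar.map_add_eq_mul]
    congr 1

private theorem KS'_m56 {S : Set V} (y : Module.Dual F V) {k : Xs F V → Circle} (hk : k ∈ KS' F S) :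
    (fun x : Xs F V => k (0, QuadraticMap.linMulLin y x.1)) ∈ KS' F S := by
  have h1 : KS' F S ≤ (KS' F S).comap (preG fun x : Xs F V => ((0, QuadraticMap.linMulLin y x.1) : Xs F V)) := by
    refine iSup₂_le fun v hv k hk => ?_
    obtain ⟨χ, hχ⟩ := hk
    refine (le_iSup₂_of_le (f := fun v (_ : v ∈ S) => Cv' F v) v hv le_rfl) ?_
    refine ⟨χ.compAddMonoidHom
      ((AddMonoidHom.inr F F).comp ((AddMonoidHom.mulLeft (y v)).comp (AddMonoidHom.fst F F))), fun x => ?_⟩
    change k (0, QuadraticMap.linMulLin y x.1) = _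
    rw [hχ]
    simp
  exact h1 hk

private theorem ht56 {S : Set V}
    (lin' : LinearIndependent ℂ (fun (k : KS' F S) (x : Xs F V) => ((k.1 x : Circle) : ℂ)))
    (k : KS F S) (f : KS' F S →₀ ℂ) (hk : k ≠ 1)
    (hf : ∀ x : Xs F V, ((k.1 x : Circle) : ℂ) = f.sum fun k' a => a * ((k'.1 x : Circle) : ℂ)) : f 1 = 0 := by
  classical
  obtain ⟨e, he⟩ : ∃ e, k.1 e ≠ 1 := by
    by_contra hcon
    push Not at hcon
    exact hk (Subtype.ext (funext hcon))
  have hhom : ∀ k' : KS' F S, ∀ x y : Xs F V, k'.1 (x + y) = k'.1 x * k'.1 y := fun k' => (KS'_le56 S k'.2).2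
  have hzero : ∀ k' : KS' F S, k'.1 0 = 1 := fun k' => (KS'_le56 S k'.2).1
  let m : KS' F S → KS' F S := fun k' => ⟨_, KS'_m56 e.1 k'.2⟩
  have hmx : ∀ (k' : KS' F S) (x : Xs F V), (m k').1 x = k'.1 (0, QuadraticMap.linMulLin e.1 x.1) := fun _ _ => rfl
  have hop : ∀ x : Xs F V, opE56 e x = e + x + ((0, QuadraticMap.linMulLin e.1 x.1) : Xs F V) := by
    intro x
    rw [opE56]
    refine Prod.ext ?_ rfl
    change e.1 + x.1 = e.1 + x.1 + 0
    rw [add_zero]
  have hm : ∀ (k' : KS' F S) (x : Xs F V), k'.1 (opE56 e x) = k'.1 e * (k' * m k').1 x := by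
    intro k' x
    rw [hop, hhom, hhom]
    change _ = k'.1 e * (k'.1 x * (m k').1 x)
    rw [hmx, mul_assoc]
  have hone : ∀ k' : KS' F S, k' * m k' = 1 ↔ k' = 1 := by
    intro k'
    constructor
    · intro h
      have h1 : ∀ x : Xs F V, k'.1 x * k'.1 (0, QuadraticMap.linMulLin e.1 x.1) = 1 := by
        intro x
        have h2 := congrArg (fun l : KS' F S => l.1 x) h
        exact h2
      have h2 : ∀ u : QuadraticForm F V, k'.1 (0, u) = 1 := by
        intro u
        have h3 := h1 (0, u)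
        have h4 : QuadraticMap.linMulLin e.1 (0 : Module.Dual F V) = 0 := by
          ext v
          simp
        change k'.1 (0, u) * k'.1 (0, QuadraticMap.linMulLin e.1 (0 : Module.Dual F V)) = 1 at h3
        rw [h4] at h3
        have h5 : k'.1 ((0, 0) : Xs F V) = 1 := hzero k'
        rw [h5, mul_one] at h3
        exact h3
      apply Subtype.ext
      funext x
      have h3 := h1 x
      rw [h2, mul_one] at h3
      exact h3
    · rintro rfl
      rw [one_mul]
      exact Subtype.ext rfl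
  have hinj : Function.Injective (Finsupp.linearCombination ℂ (fun (k : KS' F S) (x : Xs F V) => ((k.1 x : Circle) : ℂ))) :=
    lin'
  have hlc : ∀ (g : KS' F S →₀ ℂ) (x : Xs F V),
      Finsupp.linearCombination ℂ (fun (k : KS' F S) (x : Xs F V) => ((k.1 x : Circle) : ℂ)) g x
        = g.sum fun k' a => a * ((k'.1 x : Circle) : ℂ) := by
    intro g x
    rw [Finsupp.linearCombination_apply, Finsupp.sum, Finsupp.sum, Finset.sum_apply]
    rfl
  have hg : (f.sum fun k' a => Finsupp.single (k' * m k') (a * ((k'.1 e : Circle) : ℂ))) = ((k.1 e : Circle) : ℂ) • f := by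
    apply hinj
    funext x
    have e1 : Finsupp.linearCombination ℂ (fun (k : KS' F S) (x : Xs F V) => ((k.1 x : Circle) : ℂ)) f x
        = ((k.1 x : Circle) : ℂ) := by
      rw [hlc, ← hf]
    have e2 : ((k.1 e : Circle) : ℂ) * ((k.1 x : Circle) : ℂ) = ((k.1 (opE56 e x) : Circle) : ℂ) := by
      rw [(KS_le56 S k.2).2 e x, Circle.coe_mul]
    rw [map_smul, Pi.smul_apply, e1, smul_eq_mul, e2, hf]
    simp only [Finsupp.sum]
    rw [map_sum, Finset.sum_apply]
    refine Finset.sum_congr rfl fun k' _ => ?_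
    rw [Finsupp.linearCombination_single, hm, Pi.smul_apply, smul_eq_mul, Circle.coe_mul, mul_assoc]
  have h1 := DFunLike.congr_fun hg 1
  have h2 : (f.sum fun k' a => Finsupp.single (k' * m k') (a * ((k'.1 e : Circle) : ℂ))) 1 = f 1 := by
    rw [Finsupp.sum, Finsupp.finsetSum_apply]
    have h3 : ∀ k' : KS' F S, (Finsupp.single (k' * m k') (f k' * ((k'.1 e : Circle) : ℂ))) 1 = if k' = 1 then f k' else 0 := by
      intro k'
      rw [Finsupp.single_apply]
      by_cases h4 : k' = 1
      · rw [if_pos ((hone k').2 h4), if_pos h4, h4]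
        change f 1 * (((1 : Circle)) : ℂ) = f 1
        rw [Circle.coe_one, mul_one]
      · rw [if_neg (fun h => h4 ((hone k').1 h)), if_neg h4]
    simp only [h3]
    rw [Finset.sum_ite_eq']
    by_cases h4 : (1 : KS' F S) ∈ f.support
    · rw [if_pos h4]
    · rw [if_neg h4, Finsupp.notMem_support_iff.1 h4]
  rw [h2, Finsupp.smul_apply, smul_eq_mul] at h1
  have h3 : (((k.1 e : Circle) : ℂ) - 1) * f 1 = 0 := by
    rw [sub_mul, one_mul, ← h1, sub_self]
  rcases mul_eq_zero.1 h3 with h4 | h4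
  · exfalso
    apply he
    apply Circle.ext
    rw [Circle.coe_one]
    exact sub_eq_zero.1 h4
  · exact h4

theorem liso_KS (ρ : Γ →* (V ≃ₗ[F] V)) {S : Set V} (hS : ∀ γ : Γ, ∀ v ∈ S, ρ γ v ∈ S) :
    LIso (KS' F S ⋊[act (aX ρ) (KS' F S) (inv_KS' ρ hS)] Γ) (KS F S ⋊[act (aX ρ) (KS F S) (inv_KS ρ hS)] Γ) := by
  have lin' : LinearIndependent ℂ (fun (k : KS' F S) (x : Xs F V) => ((k.1 x : Circle) : ℂ)) :=
    lin56 (KS' F S) 0 (fun x y => x + y) (fun x => zero_add x) (fun x => add_zero x) (KS'_le56 S)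
  have lin : LinearIndependent ℂ (fun (k : KS F S) (x : Xs F V) => ((k.1 x : Circle) : ℂ)) := by
    refine lin56 (KS F S) 0 opE56 (fun x => ?_) (fun x => ?_) (KS_le56 S)
    · refine Prod.ext ?_ ?_
      · change (0 : Module.Dual F V) + x.1 = x.1
        rw [zero_add]
      · change (0 : QuadraticForm F V) + x.2 + QuadraticMap.linMulLin (0 : Module.Dual F V) x.1 = x.2
        ext v
        simp
    · refine Prod.ext ?_ ?_
      · change x.1 + (0 : Module.Dual F V) = x.1
        rw [add_zero]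
      · change x.2 + (0 : QuadraticForm F V) + QuadraticMap.linMulLin x.1 (0 : Module.Dual F V) = x.2
        ext v
        simp
  exact liso_of_span (aX ρ) (KS F S) (KS' F S) (inv_KS ρ hS) (inv_KS' ρ hS) lin lin' (hs56 S) (ht56 lin')

end Pool.Agent.Helper35.CR
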